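import Pool.Agent.Lib.MP_1e63be_al.Z9.GN

namespace Pool.Agent.Lib.MP_1e63be_al.Z9

open Module Filter Topology

/-- The ambient structure in coordinates. -/
structure Core (M : Type) [AddCommGroup M] [Module F M] where
  Q : ∀ {ι : Type} [Fintype ι], Submodule F (ι → M) → Prop
  R : ∀ {ι : Type} [Fintype ι], Submodule F (ι → M) → ℝ
  top : ∀ {ι : Type} [Fintype ι], Q (⊤ : Submodule F (ι → M))
  bot : ∀ {ι : Type} [Fintype ι], Q (⊥ : Submodule F (ι → M))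
  inf : ∀ {ι : Type} [Fintype ι] {A B : Submodule F (ι → M)}, Q A → Q B → Q (A ⊓ B)
  sup : ∀ {ι : Type} [Fintype ι] {A B : Submodule F (ι → M)}, Q A → Q B → Q (A ⊔ B)
  map : ∀ {ι κ : Type} [Fintype ι] [Fintype κ] (c : κ → ι → F) {A : Submodule F (ι → M)},
    Q A → Q (A.map (mat c M))
  comap : ∀ {ι κ : Type} [Fintype ι] [Fintype κ] (c : κ → ι → F) {A : Submodule F (κ → M)},
    Q A → Q (A.comap (mat c M))
  R_top : ∀ {ι : Type} [Fintype ι], R (⊤ : Submodule F (ι → M)) = Fintype.card ι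
  R_bot : ∀ {ι : Type} [Fintype ι], R (⊥ : Submodule F (ι → M)) = 0
  R_mono : ∀ {ι : Type} [Fintype ι] {A B : Submodule F (ι → M)}, Q A → Q B → A ≤ B → R A ≤ R B
  R_faith : ∀ {ι : Type} [Fintype ι] {A B : Submodule F (ι → M)}, Q A → Q B → A ≤ B →
    R B ≤ R A → B ≤ A
  R_mod : ∀ {ι : Type} [Fintype ι] {A B : Submodule F (ι → M)}, Q A → Q B →
    R (A ⊔ B) + R (A ⊓ B) = R A + R B
  R_map : ∀ {ι κ : Type} [Fintype ι] [Fintype κ] (c : κ → ι → F) {A : Submodule F (ι → M)},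
    Q A → R (A.map (mat c M)) + R (A ⊓ (⊥ : Submodule F (κ → M)).comap (mat c M)) = R A
  sat1 : ∀ {ι κ : Type} [Fintype ι] [Fintype κ] (c : κ → ι → F) {K : ℕ → Submodule F (ι → M)}
    {y : κ → M}, (∀ j, Q (K j)) → Antitone K → (∀ j, ∃ x ∈ K j, mat c M x = y) →
    ∃ x, (∀ j, x ∈ K j) ∧ mat c M x = y
  sat2 : ∀ {ι : Type} [Fintype ι] {K : ℕ → Submodule F (ι → M)} {A : Submodule F (ι → M)},
    (∀ j, Q (K j)) → Antitone K → Q A → (∀ x, (∀ j, x ∈ K j) → x ∈ A) → ∃ j, K j ≤ A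
  gen : ∀ {ι T : Type} [Fintype ι] (em : T → ℝ), Function.Injective em →
    ∀ (μ : T → Type) [∀ t, Fintype (μ t)] (Y : ∀ t, Submodule F (μ t × ι → M))
      (H : ℕ → Submodule F (ι → M)) (r : ℕ → ℝ), (∀ t, Q (Y t)) → (∀ j, Q (H j)) → Antitone H →
      Tendsto (fun j => R (H j)) atTop (𝓝 0) → Antitone r → (∀ j, 0 ≤ r j) →
      (∀ j, r j ≤ R (H j)) → (Antitone fun j => R (H j) - r j) →
      ∃ G, Q G ∧ G ≤ H 0 ∧ (∀ j, R (G ⊓ H j) = r j) ∧ ∀ t, ∃ l : (μ t → F) → ℕ∞,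
        Y t ⊓ Gt (tau (μ t) ι M) G ≤ Hl (tau (μ t) ι M) (ext H) l ∧
        Hl (tau (μ t) ι M) (ext H) l ≤ Y t ⊓ Hl (tau (μ t) ι M) (ext H) l ⊔ Gt (tau (μ t) ι M) G

namespace Par
variable {p : Par} {ι : Type} [Fintype ι]

/-- the rank of a subspace -/
noncomputable def RR (S : Submodule F (ι → p.M)) : ℝ :=
  Classical.epsilon fun t => ∃ A, hat A = S ∧ rk A = t

theorem RR_hat (A : p.Fam ι) : RR (hat A) = rk A := by
  obtain ⟨B, e, h⟩ := Classical.epsilon_spec (p := fun t => ∃ B, hat B = hat A ∧ rk B = t)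
    ⟨_, A, rfl, rfl⟩
  exact h.symm.trans (rk_congr e)

end Par

open Par in
/-- The model. -/
noncomputable def core : Core (par ℝ).M where
  Q S := ∃ A, hat A = S
  R S := RR S
  top := ⟨_, hat_top⟩
  bot := ⟨_, hat_bot⟩
  inf := by rintro ι _ _ _ ⟨A, rfl⟩ ⟨B, rfl⟩; exact ⟨_, hat_inf A B⟩
  sup := by rintro ι _ _ _ ⟨A, rfl⟩ ⟨B, rfl⟩; exact ⟨_, hat_sup A B⟩
  map := by rintro ι κ _ _ c _ ⟨A, rfl⟩; exact ⟨_, hat_map c A⟩
  comap := by rintro ι κ _ _ c _ ⟨A, rfl⟩; exact ⟨_, hat_comap c A⟩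
  R_top := by intro ι _; rw [← hat_top, RR_hat, rk_top]
  R_bot := by intro ι _; rw [← hat_bot, RR_hat, rk_bot]
  R_mono := by rintro ι _ _ _ ⟨A, rfl⟩ ⟨B, rfl⟩ h; rw [RR_hat, RR_hat]; exact rk_mono h
  R_faith := by
    rintro ι _ _ _ ⟨A, rfl⟩ ⟨B, rfl⟩ h k
    rw [RR_hat, RR_hat] at k
    exact rk_faith h k
  R_mod := by
    rintro ι _ _ _ ⟨A, rfl⟩ ⟨B, rfl⟩
    rw [← hat_sup, ← hat_inf, RR_hat, RR_hat, RR_hat, RR_hat, rk_mod]
  R_map := by
    rintro ι κ _ _ c _ ⟨A, rfl⟩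
    rw [← hat_bot, ← hat_comap, ← hat_inf, ← hat_map, RR_hat, RR_hat, RR_hat, rk_map]
  sat1 := by
    intro ι κ _ _ c K y hK ha hy
    choose A hA using hK
    obtain rfl : (fun j => hat (A j)) = K := funext hA
    exact Par.sat1 c A ha y hy
  sat2 := by
    rintro ι _ K _ hK ha ⟨B, rfl⟩ h
    choose A hA using hK
    obtain rfl : (fun j => hat (A j)) = K := funext hA
    exact Par.sat2 A ha B h
  gen := by
    intro ι T _ em hem μ _ Y H r hY hH ha h0 hr hr0 hr1 hr2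
    choose A hA using hH
    obtain rfl : (fun j => hat (A j)) = H := funext hA
    choose B hB using hY
    obtain rfl : (fun t => hat (B t)) = Y := funext hB
    simp only [RR_hat] at h0 hr1 hr2
    obtain ⟨G, h1, h2, h3⟩ := hat_gen em hem μ B A ha h0 r hr hr0 hr1 hr2
    exact ⟨hat G, ⟨G, rfl⟩, h1, fun j => by rw [← hat_inf, RR_hat, h2], h3⟩

theorem mem_Gt_tau {μ ι X : Type} [Fintype μ] [AddCommGroup X] [Module F X]
    (G : Submodule F (ι → X)) (y : μ × ι → X) :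
    y ∈ Gt (tau μ ι X) G ↔ ∀ m, (fun a => y (m, a)) ∈ G := by
  classical
  constructor
  · intro h m
    let f : (μ × ι → X) →ₗ[F] (ι → X) := LinearMap.funLeft F X fun a => (m, a)
    have : Gt (tau μ ι X) G ≤ G.comap f := by
      refine iSup_le fun c => ?_
      rintro _ ⟨v, hv, rfl⟩
      exact G.smul_mem (c m) hv
    exact this h
  · intro h
    have : y = ∑ m, tau μ ι X (Pi.single m 1) fun a => y (m, a) := by
      funext q
      rw [Finset.sum_apply, Finset.sum_eq_single q.1]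
      · simp [tau_apply]
      · intro b _ hb
        simp [tau_apply, Pi.single_eq_of_ne hb.symm]
      · simp
    rw [this]
    exact Submodule.sum_mem _ fun m _ => Submodule.mem_iSup_of_mem (Pi.single m 1) ⟨_, h m, rfl⟩

theorem commutant {M : Type} [AddCommGroup M] [Module F M] (g : M → M)
    (h : ∀ (φ : Module.End F M) v, g (φ v) = φ (g v)) : ∃ c : F, ∀ v, g v = c • v := by
  by_cases k : ∃ v₀ : M, v₀ ≠ 0
  · obtain ⟨v₀, hv⟩ := k
    obtain ⟨f, hf⟩ := Module.Projective.exists_dual_eq_one F hv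
    refine ⟨f (g v₀), fun w => ?_⟩
    have := h (f.smulRight w) v₀
    simpa [hf] using this
  · push Not at k
    exact ⟨0, fun v => by rw [k (g v), zero_smul]⟩

end Pool.Agent.Lib.MP_1e63be_al.Z9
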