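import Pool.Agent.Lib.MP_1e63be_al.Z9.FL

set_option linter.unusedSectionVars false

namespace Pool.Agent.Lib.MP_1e63be_al.Z9

open Module

section dd
variable {X Y V : Type} [AddCommGroup X] [Module F X] [Module.Finite F X]
  [AddCommGroup Y] [Module F Y] [Module.Finite F Y] [AddCommGroup V] [Module F V] [Module.Finite F V]

/-- dimension of `A` modulo `B`. -/
noncomputable def dd (A B : Submodule F X) : ℕ := finrank F A - finrank F (A ⊓ B : Submodule F X)

theorem dd_add (A B : Submodule F X) :
    dd A B + finrank F (A ⊓ B : Submodule F X) = finrank F A := by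
  have : finrank F (A ⊓ B : Submodule F X) ≤ finrank F A := Submodule.finrank_mono inf_le_left
  unfold dd; omega

theorem dd_add' (A B : Submodule F X) :
    dd A B + finrank F B = finrank F (A ⊔ B : Submodule F X) := by
  have h1 := dd_add A B
  have h2 := Submodule.finrank_sup_add_finrank_inf_eq A B
  omega

theorem dd_le (A B : Submodule F X) : dd A B ≤ finrank F A := by
  have := dd_add A B; omega

theorem dd_bot (A : Submodule F X) : dd A ⊥ = finrank F A := by
  have := dd_add A ⊥
  rw [inf_bot_eq, finrank_bot] at this; omega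

theorem dd_of_le {A B : Submodule F X} (h : A ≤ B) : dd A B = 0 := by
  have := dd_add A B
  rw [inf_eq_left.2 h] at this; omega

theorem dd_mono {A A' B B' : Submodule F X} (hA : A ≤ A') (hB : B' ≤ B) : dd A B ≤ dd A' B' := by
  have h1 := dd_add A' B
  have h2 := dd_add A' B'
  have h3 : finrank F (A' ⊓ B' : Submodule F X) ≤ finrank F (A' ⊓ B : Submodule F X) :=
    Submodule.finrank_mono (inf_le_inf_left _ hB)
  have h4 := dd_add' A B
  have h5 := dd_add' A' B
  have h6 : finrank F (A ⊔ B : Submodule F X) ≤ finrank F (A' ⊔ B : Submodule F X) :=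
    Submodule.finrank_mono (sup_le_sup_right hA _)
  omega

theorem dd_tri (A B C : Submodule F X) : dd A C ≤ dd A B + dd B C := by
  have h1 := dd_add A C
  have h2 := dd_add A B
  have h3 := dd_add B C
  have h4 := Submodule.finrank_sup_add_finrank_inf_eq (A ⊓ B) (B ⊓ C)
  have h5 : finrank F (A ⊓ B ⊔ B ⊓ C : Submodule F X) ≤ finrank F B :=
    Submodule.finrank_mono (sup_le inf_le_right inf_le_left)
  have h6 : finrank F (A ⊓ B ⊓ (B ⊓ C) : Submodule F X) ≤ finrank F (A ⊓ C : Submodule F X) :=
    Submodule.finrank_mono (inf_le_inf inf_le_left inf_le_right)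
  omega

theorem dd_inf (A B C : Submodule F X) : dd A (B ⊓ C) ≤ dd A B + dd A C := by
  have h1 := dd_add A C
  have h2 := dd_add A B
  have h3 := dd_add A (B ⊓ C)
  have h4 := Submodule.finrank_sup_add_finrank_inf_eq (A ⊓ B) (A ⊓ C)
  have h5 : finrank F (A ⊓ B ⊔ A ⊓ C : Submodule F X) ≤ finrank F A :=
    Submodule.finrank_mono (sup_le inf_le_left inf_le_left)
  rw [← inf_inf_distrib_left] at h4
  omega

theorem dd_sup (A B C : Submodule F X) : dd (A ⊔ B) C ≤ dd A C + dd B C := by
  have h1 := dd_add' A C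
  have h2 := dd_add' B C
  have h3 := dd_add' (A ⊔ B) C
  have h4 := Submodule.finrank_sup_add_finrank_inf_eq (A ⊔ C) (B ⊔ C)
  have h5 : finrank F C ≤ finrank F ((A ⊔ C) ⊓ (B ⊔ C) : Submodule F X) :=
    Submodule.finrank_mono (le_inf le_sup_right le_sup_right)
  rw [← sup_sup_distrib_right] at h4
  omega

theorem dd_comap (f : X →ₗ[F] Y) (A : Submodule F X) (B : Submodule F Y) :
    dd A (B.comap f) = dd (A.map f) B := by
  have h1 := dd_add A (B.comap f)
  have h2 := dd_add (A.map f) B
  have h3 := finrank_comap_inf f A B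
  have h4 := finrank_map_add f A
  omega

theorem dd_map (f : X →ₗ[F] Y) (A B : Submodule F X) : dd (A.map f) (B.map f) ≤ dd A B := by
  rw [← dd_comap]
  exact dd_mono le_rfl (Submodule.le_comap_map _ _)

theorem finrank_le_add_dd (A B : Submodule F X) : finrank F A ≤ finrank F B + dd A B := by
  have h1 := dd_add A B
  have h3 : finrank F (A ⊓ B : Submodule F X) ≤ finrank F B := Submodule.finrank_mono inf_le_right
  omega

theorem dd_iSup_le {ι : Type} [Fintype ι] (A : ι → Submodule F X) (B : Submodule F X) :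
    dd (⨆ c, A c) B ≤ ∑ c, dd (A c) B := by
  classical
  have : ∀ s : Finset ι, dd (⨆ c ∈ s, A c) B ≤ ∑ c ∈ s, dd (A c) B := by
    intro s
    induction s using Finset.induction_on with
    | empty => simp [dd_of_le]
    | insert a s ha ih =>
      rw [Finset.iSup_insert, Finset.sum_insert ha]
      exact (dd_sup _ _ _).trans (by omega)
  simpa using this Finset.univ

/-- approximate lifting -/
theorem approx_lift (f : X →ₗ[F] Y) (A : Submodule F X) (w : V →ₗ[F] Y) :
    ∃ y : V →ₗ[F] X, LinearMap.range y ≤ A ∧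
      finrank F (LinearMap.range (f ∘ₗ y - w)) ≤ dd (LinearMap.range w) (A.map f) := by
  obtain ⟨q, hq⟩ := (A.map f).exists_isCompl
  let g : A →ₗ[F] A.map f := f.restrict fun x hx => Submodule.mem_map_of_mem hx
  have hg : Function.Surjective g := by
    rintro ⟨_, x, hx, rfl⟩
    exact ⟨⟨x, hx⟩, rfl⟩
  obtain ⟨h, hh⟩ := Module.projective_lifting_property g
    ((A.map f).projectionOnto q hq ∘ₗ w) hg
  refine ⟨A.subtype ∘ₗ h, ?_, ?_⟩
  · rintro _ ⟨v, rfl⟩; exact (h v).2
  · let p : Y →ₗ[F] Y := (A.map f).projection q hq - LinearMap.id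
    have e : f ∘ₗ (A.subtype ∘ₗ h) - w = p ∘ₗ w := by
      ext v
      have := congrArg (fun k : V →ₗ[F] A.map f => (k v : Y)) hh
      simp only [LinearMap.comp_apply] at this
      simp only [p, LinearMap.sub_apply, LinearMap.comp_apply, LinearMap.id_apply]
      congr 1
    rw [e, LinearMap.range_comp, ← dd_bot, ← dd_comap]
    refine dd_mono le_rfl fun x hx => ?_
    simp [p, Submodule.projection_apply_of_mem_left hq hx]

/-- a map detecting `dd`. -/
theorem detect (n : ℕ) (A B : Submodule F X) :
    ∃ w : (Fin n → F) →ₗ[F] X, LinearMap.range w ≤ A ∧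
      min n (dd A B) ≤ dd (LinearMap.range w) B := by
  obtain ⟨q, hq⟩ := (B.comap A.subtype).exists_isCompl
  have h1 : finrank F q = dd A B := by
    have a := Submodule.finrank_add_eq_of_isCompl hq
    have b := dd_add A B
    have c : finrank F (B.comap A.subtype) = finrank F (A ⊓ B : Submodule F X) := by
      rw [← Submodule.finrank_map_subtype_eq A, Submodule.map_comap_subtype]
    omega
  set d := min n (dd A B) with hd
  obtain ⟨v, hv⟩ := exists_linearIndependent_of_le_finrank (R := F) (M := q) (n := d)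
    (by rw [h1]; exact min_le_right _ _)
  let g : (Fin d → F) →ₗ[F] q := Fintype.linearCombination F v
  have hg : Function.Injective g := hv.fintypeLinearCombination_injective
  let r : (Fin n → F) →ₗ[F] (Fin d → F) := LinearMap.funLeft F F (Fin.castLE (min_le_left _ _))
  have hr : Function.Surjective r :=
    LinearMap.funLeft_surjective_of_injective F F _ (Fin.castLE_injective _)
  let j : (Fin d → F) →ₗ[F] X := A.subtype ∘ₗ q.subtype ∘ₗ g
  have hj : Function.Injective j :=
    A.subtype_injective.comp (q.subtype_injective.comp hg)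
  refine ⟨j ∘ₗ r, ?_, ?_⟩
  · rintro _ ⟨u, rfl⟩; exact (g (r u) : A).2
  · rw [LinearMap.range_comp_of_range_eq_top _ (LinearMap.range_eq_top.2 hr)]
    have a := dd_add (LinearMap.range j) B
    have b : LinearMap.range j ⊓ B = ⊥ := by
      rw [eq_bot_iff]
      rintro _ ⟨⟨u, rfl⟩, hu⟩
      have : ((g u : q) : A) ∈ B.comap A.subtype ⊓ q := ⟨hu, (g u).2⟩
      rw [hq.inf_eq_bot, Submodule.mem_bot] at this
      show ((g u : q) : A).1 = 0
      rw [this]; rfl
    rw [b, finrank_bot, LinearMap.finrank_range_of_inj hj] at a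
    simp at a
    omega

theorem range_pi_le {ι : Type} [Fintype ι] (f : ι → V →ₗ[F] X) :
    finrank F (LinearMap.range (LinearMap.pi f)) ≤ ∑ a, finrank F (LinearMap.range (f a)) := by
  classical
  have h : LinearMap.range (LinearMap.pi f) ≤
      ⨆ a, (LinearMap.range (f a)).map (LinearMap.single F (fun _ : ι => X) a) := by
    rintro _ ⟨v, rfl⟩
    rw [← Finset.univ_sum_single (LinearMap.pi f v)]
    exact Submodule.sum_mem _ fun a _ => Submodule.mem_iSup_of_mem a ⟨f a v, ⟨v, rfl⟩, rfl⟩
  refine (Submodule.finrank_mono h).trans ?_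
  rw [← dd_bot]
  refine (dd_iSup_le _ _).trans (Finset.sum_le_sum fun a _ => ?_)
  rw [dd_bot]
  exact Submodule.finrank_map_le _ _

theorem dd_range_le (w w' : V →ₗ[F] X) (A : Submodule F X) :
    dd (LinearMap.range w) A ≤
      dd (LinearMap.range w') A + finrank F (LinearMap.range (w - w')) := by
  have h : LinearMap.range w ≤ LinearMap.range w' ⊔ LinearMap.range (w - w') := by
    rintro _ ⟨v, rfl⟩
    have : w v = w' v + (w - w') v := by simp
    rw [this]
    exact Submodule.add_mem_sup ⟨v, rfl⟩ ⟨v, rfl⟩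
  exact (dd_mono h le_rfl).trans ((dd_sup _ _ _).trans (by have := dd_le (LinearMap.range (w - w')) A; omega))

theorem dd_range_add (w w' : V →ₗ[F] X) (A : Submodule F X) :
    dd (LinearMap.range (w + w')) A ≤ dd (LinearMap.range w) A + dd (LinearMap.range w') A := by
  have h : LinearMap.range (w + w') ≤ LinearMap.range w ⊔ LinearMap.range w' := by
    rintro _ ⟨v, rfl⟩
    exact Submodule.add_mem_sup ⟨v, rfl⟩ ⟨v, rfl⟩
  exact (dd_mono h le_rfl).trans (dd_sup _ _ _)

end dd

end Pool.Agent.Lib.MP_1e63be_al.Z9
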