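import Pool.Agent.Lib.MP_1e63be_al.Z9.DD

set_option linter.unusedSectionVars false

namespace Pool.Agent.Lib.MP_1e63be_al.Z9

open Module

theorem markov {α T : Type} [Fintype T] (Z : Finset α) (hZ : Z.Nonempty) (a : T → α → ℝ)
    (h0 : ∀ t z, 0 ≤ a t z) (h : ∀ t, ∑ z ∈ Z, a t z ≤ Z.card) :
    ∃ z ∈ Z, ∀ t, a t z ≤ Fintype.card T := by
  have hsum : ∑ z ∈ Z, ∑ t, a t z ≤ ∑ z ∈ Z, (Fintype.card T : ℝ) := by
    rw [Finset.sum_comm, Finset.sum_const, nsmul_eq_mul]
    calc _ ≤ ∑ t : T, (Z.card : ℝ) := Finset.sum_le_sum fun t _ => h t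
      _ = _ := by simp [mul_comm]
  obtain ⟨z, hz, hle⟩ := Finset.exists_le_of_sum_le hZ hsum
  exact ⟨z, hz, fun t => le_trans (Finset.single_le_sum (f := fun t => a t z)
    (fun t _ => h0 t z) (Finset.mem_univ t)) hle⟩

open Classical in
theorem avg' {V C W β : Type} [AddCommGroup V] [Module F V] [AddCommGroup C] [Module F C]
    [AddCommGroup W] [Module F W] [Fintype β] [Fintype V] [Finite C] [Finite W]
    (τ : C →ₗ[F] V →ₗ[F] W) {H : ℕ∞ → Submodule F V}
    (hH : Antitone H) (h0 : H ⊤ = ⊥) (lev : β → ℕ∞) (Y : Submodule F W) :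
    ∃ l : C → ℕ∞, (∀ c, l c ∈ Lam lev) ∧ ∃ a : (β → V) → ℝ, (∀ ζ, 0 ≤ a ζ) ∧
      ∑ ζ ∈ Finset.univ.filter (· ∈ Zs H lev), a ζ ≤ (Finset.univ.filter (· ∈ Zs H lev)).card ∧
      ∀ (ζ : β → V) (N e : ℕ), a ζ ≤ N → N * (Lam lev).card ^ Nat.card C ≤ 2 ^ e →
        finrank F (Y.comap (ev τ ζ)) + finrank F (Hl τ H l) ≤
          e + finrank F (Ul lev l) + finrank F (Hl τ H l ⊓ Y : Submodule F _) := by
  have := Fintype.ofFinite C
  obtain ⟨l, hl, hs⟩ := avg τ hH h0 lev Y
  set g : ℤ := (finrank F (Ul lev l) : ℤ) +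
    finrank F (Hl τ H l ⊓ Y : Submodule F _) - finrank F (Hl τ H l) with hg
  set K : ℝ := ((Lam lev).card : ℝ) ^ Fintype.card C * 2 ^ g with hK
  have hL : 0 < (Lam lev).card := Finset.card_pos.2 ⟨⊤, by simp [Lam]⟩
  have hK0 : 0 < K := by
    rw [hK]; have : (0 : ℝ) < (Lam lev).card := by exact_mod_cast hL
    positivity
  refine ⟨l, hl, fun ζ => (2 : ℝ) ^ finrank F (Y.comap (ev τ ζ)) / K,
    fun ζ => div_nonneg (by positivity) hK0.le, ?_, ?_⟩
  · rw [← Finset.sum_div, div_le_iff₀ hK0, card_filter_mem]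
    refine hs.trans (le_of_eq ?_)
    rw [hK]; push_cast; ring
  · intro ζ N e h1 he
    rw [div_le_iff₀ hK0, hK] at h1
    rw [Nat.card_eq_fintype_card] at he
    have h2 : (N : ℝ) * ((Lam lev).card : ℝ) ^ Fintype.card C ≤ 2 ^ e := by exact_mod_cast he
    have h3 : (2 : ℝ) ^ ((finrank F (Y.comap (ev τ ζ)) : ℕ) : ℤ) ≤ 2 ^ ((e : ℤ) + g) := by
      rw [zpow_add₀ (by norm_num), zpow_natCast, zpow_natCast]
      refine h1.trans ?_
      rw [← mul_assoc]
      gcongr
    have h4 := (zpow_le_zpow_iff_right₀ (by norm_num : (1 : ℝ) < 2)).1 h3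
    omega

/-- extension of a chain by `⊥` at infinity -/
def ext {α : Type} [Bot α] (H : ℕ → α) : ℕ∞ → α := fun x => ENat.recTopCoe ⊥ H x

@[simp] theorem ext_top {α : Type} [Bot α] (H : ℕ → α) : ext H ⊤ = ⊥ := rfl
@[simp] theorem ext_coe {α : Type} [Bot α] (H : ℕ → α) (j : ℕ) : ext H j = H j := rfl

theorem ext_anti {α : Type} [Preorder α] [OrderBot α] {H : ℕ → α} (h : Antitone H) :
    Antitone (ext H) := by
  intro x y hxy
  induction y using ENat.recTopCoe with
  | top => simp
  | coe y =>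
    induction x using ENat.recTopCoe with
    | top => simp at hxy
    | coe x => simpa using h (by exact_mod_cast hxy)

theorem F_cases (c : F) : c = 0 ∨ c = 1 := by revert c; decide

theorem Hl_lsmul {V : Type} [AddCommGroup V] [Module F V] (H : ℕ∞ → Submodule F V) (l : F → ℕ∞) :
    Hl (LinearMap.lsmul F V) H l = H (l 1) := by
  apply le_antisymm
  · refine iSup_le fun c => ?_
    rcases F_cases c with rfl | rfl
    · rintro _ ⟨v, _, rfl⟩; simp
    · rintro _ ⟨v, hv, rfl⟩; simpa using hv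
  · intro v hv
    exact Submodule.mem_iSup_of_mem 1 ⟨v, hv, by simp⟩

theorem Gt_lsmul {V : Type} [AddCommGroup V] [Module F V] (G : Submodule F V) :
    Gt (LinearMap.lsmul F V) G = G := Hl_lsmul (fun _ => G) (fun _ => 0)

/-- vectors supported on a set -/
def supp {β : Type} (p : β → Prop) : Submodule F (β → F) :=
  Submodule.pi {b | ¬ p b} fun _ => ⊥

theorem finrank_supp {β : Type} [Fintype β] (p : β → Prop) [DecidablePred p] :
    finrank F (supp p) = (Finset.univ.filter p).card := by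
  let r : supp p →ₗ[F] ({b // p b} → F) :=
    LinearMap.funLeft F F Subtype.val ∘ₗ (supp p).subtype
  have hr : Function.Bijective r := by
    constructor
    · rw [injective_iff_map_eq_zero]
      intro u hu
      ext b
      by_cases hb : p b
      · exact congrFun hu ⟨b, hb⟩
      · exact u.2 b hb
    · intro v
      refine ⟨⟨fun b => if h : p b then v ⟨b, h⟩ else 0, fun b hb => ?_⟩, ?_⟩
      · have hb' : ¬ p b := hb
        simp [hb']
      · ext b
        show (if h : p b.1 then v ⟨b.1, h⟩ else 0) = v b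
        simp [b.2]
  rw [(LinearEquiv.ofBijective r hr).finrank_eq]
  simp [Fintype.card_subtype]

theorem Ul_le_supp {β : Type} (lev : β → ℕ∞) (l : F → ℕ∞) :
    Ul lev l ≤ supp fun b => l 1 ≤ lev b := by
  intro u hu b hb
  have h : Submodule.span F {c : F | l c ≤ lev b} ≤ ⊥ := by
    rw [Submodule.span_le]
    intro c hc
    rcases F_cases c with rfl | rfl
    · simp
    · exact absurd hc hb
  exact h (hu b trivial)

/-- Finite form of GEN. -/
theorem fin_gen {V T : Type} [AddCommGroup V] [Module F V] [Finite V] [Fintype T]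
    {C W : T → Type} [∀ t, AddCommGroup (C t)] [∀ t, Module F (C t)] [∀ t, Finite (C t)]
    [∀ t, AddCommGroup (W t)] [∀ t, Module F (W t)] [∀ t, Finite (W t)]
    (τ : ∀ t, C t →ₗ[F] V →ₗ[F] W t) (Y : ∀ t, Submodule F (W t))
    {H : ℕ → Submodule F V} (hH : Antitone H) {S : ℕ → ℕ} (hS : Antitone S)
    (hSH : ∀ j, S j ≤ finrank F (H j)) (m D e : ℕ) (hD : ∀ t, Nat.card (C t) ≤ D) (hD2 : 2 ≤ D)
    (he : (Fintype.card T + (m + 2)) * (m + 2) ^ D ≤ 2 ^ e) :
    ∃ G : Submodule F V, G ≤ H 0 ∧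
      (∀ j ≤ m, S j ≤ finrank F (G ⊓ H j : Submodule F V) + e ∧
        ∃ k ≤ j, finrank F (G ⊓ H j : Submodule F V) + finrank F (H k) ≤ e + S k + finrank F (H j)) ∧
      ∀ t, ∃ l : C t → ℕ∞,
        dd (Y t ⊓ Gt (τ t) G) (Hl (τ t) (ext H) l) ≤ e ∧
        dd (Hl (τ t) (ext H) l) (Y t ⊓ Hl (τ t) (ext H) l ⊔ Gt (τ t) G) ≤ e := by
  classical
  have := Fintype.ofFinite V
  have : Module.Finite F V := Module.Finite.of_finite
  have : ∀ t, Module.Finite F (W t) := fun t => Module.Finite.of_finite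
  have : ∀ t, Module.Finite F (C t) := fun t => Module.Finite.of_finite
  let β := Fin (S 0)
  let lv : β → ℕ := fun b => Nat.findGreatest (fun j => b.1 < S j) m
  let lev : β → ℕ∞ := fun b => (lv b : ℕ∞)
  have hlv : ∀ b, lv b ≤ m := fun b => Nat.findGreatest_le m
  have hlvS : ∀ b : β, b.1 < S (lv b) := fun b =>
    Nat.findGreatest_spec (P := fun j => b.1 < S j) (Nat.zero_le m) b.2
  have hcard : ∀ k : ℕ, (Finset.univ.filter fun b : β => (k : ℕ∞) ≤ lev b).card ≤ S k := by
    intro k
    rw [← Finset.card_range (S k)]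
    refine Finset.card_le_card_of_injOn (fun b => b.1) ?_ fun a _ b _ h => Fin.ext h
    intro b hb
    have h1 : k ≤ lv b := by simpa [lev] using hb
    simpa using (hlvS b).trans_le (hS h1)
  have hcard' : ∀ k ≤ m, S k ≤ (Finset.univ.filter fun b : β => (k : ℕ∞) ≤ lev b).card := by
    intro k hk
    rw [← Fintype.card_fin (S k), ← Finset.card_univ]
    refine Finset.card_le_card_of_injOn (Fin.castLE (hS (Nat.zero_le k))) ?_
      fun a _ b _ h => Fin.castLE_injective _ h
    intro b _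
    have h1 : k ≤ lv (Fin.castLE (hS (Nat.zero_le k)) b) :=
      Nat.le_findGreatest (P := fun j => (Fin.castLE (hS (Nat.zero_le k)) b).1 < S j) hk b.2
    simpa [lev] using h1
  have hLam : (Lam lev).card ≤ m + 2 := by
    have : Lam lev ⊆ insert ⊤ ((Finset.range (m + 1)).image fun j : ℕ => (j : ℕ∞)) := by
      intro x hx
      simp only [Lam, Finset.mem_insert, Finset.mem_image, Finset.mem_univ, true_and] at hx
      rcases hx with rfl | ⟨b, rfl⟩
      · simp
      · exact Finset.mem_insert_of_mem (Finset.mem_image.2 ⟨lv b, by simpa using Nat.lt_succ_of_le (hlv b), rfl⟩)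
    refine (Finset.card_le_card this).trans ((Finset.card_insert_le _ _).trans ?_)
    have := Finset.card_image_le (s := Finset.range (m + 1)) (f := fun j : ℕ => (j : ℕ∞))
    simp at this
    omega
  have hH' := ext_anti hH
  choose l hl a ha0 haZ ha using fun t => avg' (τ t) hH' (ext_top H) lev (Y t)
  let Y2 : Option (Fin (m + 1)) → Submodule F V := fun o => o.elim ⊥ fun j => H j
  choose l2 hl2 a2 ha20 ha2Z ha2 using fun o : Option (Fin (m + 1)) =>
    avg' (LinearMap.lsmul F V) hH' (ext_top H) lev (Y2 o)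
  obtain ⟨ζ, hζ, hle⟩ := markov (T := T ⊕ Option (Fin (m + 1)))
    (Finset.univ.filter (· ∈ Zs (ext H) lev)) ⟨0, by simp⟩ (Sum.elim a a2)
    (by rintro (t | o) z; exacts [ha0 t z, ha20 o z]) (by
      rintro (t | o)
      · convert haZ t <;> rfl
      · convert ha2Z o <;> rfl)
  have hζ' : ∀ b, ζ b ∈ ext H (lev b) := fun b => (Finset.mem_filter.1 hζ).2 b trivial
  have hN : Fintype.card (T ⊕ Option (Fin (m + 1))) = Fintype.card T + (m + 2) := by simp
  have hbound : ∀ d ≤ D, Fintype.card (T ⊕ Option (Fin (m + 1))) * (Lam lev).card ^ d ≤ 2 ^ e := by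
    intro d hd
    rw [hN]
    refine le_trans (Nat.mul_le_mul_left _ ?_) he
    exact (Nat.pow_le_pow_left hLam d).trans (Nat.pow_le_pow_right (by omega) hd)
  set G := Submodule.span F (Set.range ζ) with hG
  set f := ev (LinearMap.lsmul F V) ζ with hf
  have hr : (⊤ : Submodule F _).map f = G := by rw [Submodule.map_top, range_ev, Gt_lsmul]
  have key : ∀ o, ∃ x : ℕ∞, finrank F (LinearMap.ker f) + finrank F (G ⊓ Y2 o : Submodule F V) +
      finrank F (ext H x) ≤ e + (Finset.univ.filter fun b : β => x ≤ lev b).card +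
        finrank F (ext H x ⊓ Y2 o : Submodule F V) := by
    intro o
    have h1 := ha2 o ζ _ e (hle (Sum.inr o)) (hbound _ (by simpa using hD2))
    rw [Hl_lsmul, ← hf] at h1
    have h2 := finrank_comap_inf f ⊤ (Y2 o)
    rw [hr, top_inf_eq, top_inf_eq] at h2
    have h3 := Submodule.finrank_mono (Ul_le_supp lev (l2 o))
    rw [finrank_supp] at h3
    refine ⟨l2 o 1, ?_⟩
    omega
  have hker : finrank F (LinearMap.ker f) ≤ e := by
    obtain ⟨x, hx⟩ := key none
    have e1 : Y2 none = ⊥ := rfl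
    rw [e1, inf_bot_eq, inf_bot_eq, finrank_bot] at hx
    induction x using ENat.recTopCoe with
    | top =>
      have : (Finset.univ.filter fun b : β => (⊤ : ℕ∞) ≤ lev b) = ∅ := by
        ext b; simp [lev]
      rw [this, ext_top, finrank_bot, Finset.card_empty] at hx
      omega
    | coe k =>
      have := hcard k
      have := hSH k
      rw [ext_coe] at hx
      omega
  refine ⟨G, ?_, ?_, ?_⟩
  · rw [hG, Submodule.span_le]
    rintro _ ⟨b, rfl⟩
    exact hH (Nat.zero_le (lv b)) (hζ' b)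
  · intro j hj
    constructor
    · have h1 := finrank_map_add f (supp fun b => (j : ℕ∞) ≤ lev b)
      rw [finrank_supp] at h1
      have h2 : (supp fun b => (j : ℕ∞) ≤ lev b).map f ≤ G ⊓ H j := by
        refine le_inf (hr ▸ Submodule.map_mono le_top) ?_
        rintro _ ⟨u, hu, rfl⟩
        show ∑ b, LinearMap.lsmul F V (u b) (ζ b) ∈ H j
        refine Submodule.sum_mem _ fun b _ => ?_
        by_cases hb : (j : ℕ∞) ≤ lev b
        · exact (H j).smul_mem (u b) (hH' hb (hζ' b))
        · have : u b = 0 := hu b hb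
          simp [this]
      have h3 := Submodule.finrank_mono h2
      have h4 : finrank F ((supp fun b => (j : ℕ∞) ≤ lev b) ⊓ LinearMap.ker f : Submodule F _) ≤
          finrank F (LinearMap.ker f) := Submodule.finrank_mono inf_le_right
      have := hcard' j hj
      omega
    · obtain ⟨x, hx⟩ := key (some ⟨j, Nat.lt_succ_of_le hj⟩)
      have e1 : Y2 (some ⟨j, Nat.lt_succ_of_le hj⟩) = H j := rfl
      rw [e1] at hx
      induction x using ENat.recTopCoe with
      | top =>
        have : (Finset.univ.filter fun b : β => (⊤ : ℕ∞) ≤ lev b) = ∅ := by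
          ext b; simp [lev]
        rw [this, ext_top, bot_inf_eq, finrank_bot, Finset.card_empty] at hx
        exact ⟨j, le_rfl, by omega⟩
      | coe k =>
        have h1 := hcard k
        rw [ext_coe] at hx
        rcases le_total k j with hk | hk
        · have : finrank F (H k ⊓ H j : Submodule F V) ≤ finrank F (H j) :=
            Submodule.finrank_mono inf_le_right
          exact ⟨k, hk, by omega⟩
        · have : finrank F (H k ⊓ H j : Submodule F V) ≤ finrank F (H k) :=
            Submodule.finrank_mono inf_le_left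
          have := hS hk
          exact ⟨j, le_rfl, by omega⟩
  · intro t
    have h1 := ha t ζ _ e (hle (Sum.inl t)) (hbound _ (hD t))
    obtain ⟨h2, h3⟩ := cover_full (τ t) hH' lev ζ hζ' (l t) (Y t) e h1
    rw [← hG] at h2 h3
    refine ⟨l t, ?_, ?_⟩
    · have := dd_add (Y t ⊓ Gt (τ t) G) (Hl (τ t) (ext H) (l t))
      omega
    · have := dd_add (Hl (τ t) (ext H) (l t)) (Y t ⊓ Hl (τ t) (ext H) (l t) ⊔ Gt (τ t) G)
      omega

end Pool.Agent.Lib.MP_1e63be_al.Z9
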