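import Mathlib

set_option linter.unusedSectionVars false

namespace Pool.Agent.Lib.MP_1e63be_al.Z9

open Module Finset

abbrev F := ZMod 2

section dims
variable {X W : Type} [AddCommGroup X] [Module F X] [AddCommGroup W] [Module F W]

theorem finrank_map_add [Module.Finite F X] (f : X →ₗ[F] W) (A : Submodule F X) :
    finrank F (A.map f) + finrank F (A ⊓ LinearMap.ker f : Submodule F X) = finrank F A := by
  have h := LinearMap.finrank_range_add_finrank_ker (f.domRestrict A)
  rw [LinearMap.range_domRestrict, LinearMap.ker_domRestrict] at h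
  rw [← h]
  congr 1
  rw [← Submodule.finrank_map_subtype_eq A, Submodule.map_comap_subtype]

theorem finrank_comap_inf [Module.Finite F X] (f : X →ₗ[F] W) (A : Submodule F X)
    (Y : Submodule F W) :
    finrank F (A ⊓ Y.comap f : Submodule F X) =
      finrank F (A ⊓ LinearMap.ker f : Submodule F X) + finrank F (A.map f ⊓ Y : Submodule F W) := by
  have h := finrank_map_add f (A ⊓ Y.comap f)
  rw [← Submodule.map_inf_eq_map_inf_comap] at h
  · have h2 : (A ⊓ Y.comap f) ⊓ LinearMap.ker f = A ⊓ LinearMap.ker f := by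
      ext x
      simp only [Submodule.mem_inf, Submodule.mem_comap, LinearMap.mem_ker]
      constructor
      · rintro ⟨⟨a, _⟩, c⟩; exact ⟨a, c⟩
      · rintro ⟨a, c⟩; exact ⟨⟨a, by rw [c]; exact Y.zero_mem⟩, c⟩
    rw [h2] at h
    omega

theorem card_eq_pow [Finite X] (A : Submodule F X) : Nat.card A = 2 ^ finrank F A := by
  have : Module.Finite F A := Module.Finite.of_finite
  rw [Module.natCard_eq_pow_finrank (K := F)]
  simp

end dims

section one
variable {V C W β : Type} [AddCommGroup V] [Module F V] [AddCommGroup C] [Module F C]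
  [AddCommGroup W] [Module F W] [Fintype β]

/-- `H_l`. -/
def Hl (τ : C →ₗ[F] V →ₗ[F] W) (H : ℕ∞ → Submodule F V) (l : C → ℕ∞) : Submodule F W :=
  ⨆ c, (H (l c)).map (τ c)

/-- `G ⊗ C`. -/
def Gt (τ : C →ₗ[F] V →ₗ[F] W) (G : Submodule F V) : Submodule F W := ⨆ c, G.map (τ c)

def ev (τ : C →ₗ[F] V →ₗ[F] W) (ζ : β → V) : (β → C) →ₗ[F] W where
  toFun u := ∑ b, τ (u b) (ζ b)
  map_add' u v := by simp [Finset.sum_add_distrib]
  map_smul' a u := by simp [Finset.smul_sum]

def Ul (lev : β → ℕ∞) (l : C → ℕ∞) : Submodule F (β → C) :=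
  Submodule.pi Set.univ fun b => Submodule.span F {c | l c ≤ lev b}

theorem range_ev (τ : C →ₗ[F] V →ₗ[F] W) (ζ : β → V) :
    LinearMap.range (ev τ ζ) = Gt τ (Submodule.span F (Set.range ζ)) := by
  classical
  apply le_antisymm
  · rintro _ ⟨u, rfl⟩
    refine Submodule.sum_mem _ fun b _ => ?_
    exact Submodule.mem_iSup_of_mem (u b) ⟨ζ b, Submodule.subset_span ⟨b, rfl⟩, rfl⟩
  · refine iSup_le fun c => ?_
    rw [Submodule.map_span, Submodule.span_le]
    rintro _ ⟨_, ⟨b, rfl⟩, rfl⟩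
    refine ⟨Pi.single b c, ?_⟩
    show ∑ b', τ ((Pi.single b c : β → C) b') (ζ b') = τ c (ζ b)
    rw [Finset.sum_eq_single b]
    · simp
    · intro b' _ h; simp [Pi.single_eq_of_ne h]
    · simp

theorem map_Ul_le (τ : C →ₗ[F] V →ₗ[F] W) {H : ℕ∞ → Submodule F V} (hH : Antitone H)
    (lev : β → ℕ∞) (ζ : β → V) (hζ : ∀ b, ζ b ∈ H (lev b)) (l : C → ℕ∞) :
    (Ul lev l).map (ev τ ζ) ≤ Hl τ H l := by
  rintro _ ⟨u, hu, rfl⟩
  refine Submodule.sum_mem _ fun b _ => ?_
  have hb : u b ∈ Submodule.span F {c | l c ≤ lev b} := hu b trivial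
  have : Submodule.span F {c | l c ≤ lev b} ≤ (Hl τ H l).comap (τ.flip (ζ b)) := by
    rw [Submodule.span_le]
    intro c hc
    exact Submodule.mem_iSup_of_mem c ⟨ζ b, hH hc (hζ b), rfl⟩
  exact this hb

/-- type of a coefficient vector -/
noncomputable def lu (lev : β → ℕ∞) (u : β → C) (c : C) : ℕ∞ := by
  classical exact (Finset.univ.filter fun b => u b = c).inf lev

theorem lu_le (lev : β → ℕ∞) (u : β → C) (b : β) : lu lev u (u b) ≤ lev b := by
  classical
  unfold lu
  exact Finset.inf_le (by simp)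

theorem lu_cases (lev : β → ℕ∞) (u : β → C) (c : C) :
    lu lev u c = ⊤ ∨ ∃ b, u b = c ∧ lu lev u c = lev b := by
  classical
  unfold lu
  rcases (Finset.univ.filter fun b => u b = c).eq_empty_or_nonempty with h | h
  · left; rw [h]; simp
  · right
    obtain ⟨b, hb, e⟩ := Finset.exists_mem_eq_inf _ h lev
    exact ⟨b, by simpa using hb, e⟩

theorem mem_Ul_lu (lev : β → ℕ∞) (u : β → C) : u ∈ Ul lev (lu lev u) :=
  fun b _ => Submodule.subset_span (lu_le lev u b)

/-- evaluation as a function of the random vectors -/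
def evz (τ : C →ₗ[F] V →ₗ[F] W) (u : β → C) : (β → V) →ₗ[F] W where
  toFun ζ := ∑ b, τ (u b) (ζ b)
  map_add' u v := by simp [Finset.sum_add_distrib]
  map_smul' a u := by simp [Finset.smul_sum]

def Zs (H : ℕ∞ → Submodule F V) (lev : β → ℕ∞) : Submodule F (β → V) :=
  Submodule.pi Set.univ fun b => H (lev b)

theorem map_Zs (τ : C →ₗ[F] V →ₗ[F] W) {H : ℕ∞ → Submodule F V} (hH : Antitone H)
    (h0 : H ⊤ = ⊥) (lev : β → ℕ∞) (u : β → C) :
    (Zs H lev).map (evz τ u) = Hl τ H (lu lev u) := by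
  classical
  apply le_antisymm
  · rintro _ ⟨ζ, hζ, rfl⟩
    exact map_Ul_le τ hH lev ζ (fun b => hζ b trivial) _ ⟨u, mem_Ul_lu lev u, rfl⟩
  · refine iSup_le fun c => ?_
    rcases lu_cases lev u c with h | ⟨b, rfl, h⟩
    · rw [h, h0]; simp
    · rw [h]
      rintro _ ⟨v, hv, rfl⟩
      refine ⟨Pi.single b v, fun b' _ => ?_, ?_⟩
      · by_cases e : b' = b
        · subst e; simpa using hv
        · simp [Pi.single_eq_of_ne e]
      · show ∑ b', τ (u b') ((Pi.single b v : β → V) b') = τ (u b) v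
        rw [Finset.sum_eq_single b]
        · simp
        · intro b' _ h; simp [Pi.single_eq_of_ne h]
        · simp

/-- the allowed values of types -/
noncomputable def Lam (lev : β → ℕ∞) : Finset ℕ∞ := by
  classical exact insert ⊤ (Finset.univ.image lev)

theorem lu_mem (lev : β → ℕ∞) (u : β → C) (c : C) : lu lev u c ∈ Lam lev := by
  classical
  unfold Lam
  rcases lu_cases lev u c with h | ⟨b, _, h⟩
  · rw [h]; simp
  · rw [h]; simp

theorem card_filter_mem {X : Type} [AddCommGroup X] [Module F X] [Fintype X]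
    (A : Submodule F X) [DecidablePred (· ∈ A)] :
    (Finset.univ.filter (· ∈ A)).card = 2 ^ finrank F A := by
  rw [← card_eq_pow, Nat.card_eq_fintype_card, Fintype.card_subtype]

open Classical in
theorem avg [Fintype V] [Fintype C] [Finite W] (τ : C →ₗ[F] V →ₗ[F] W) {H : ℕ∞ → Submodule F V}
    (hH : Antitone H) (h0 : H ⊤ = ⊥) (lev : β → ℕ∞) (Y : Submodule F W) :
    ∃ l : C → ℕ∞, (∀ c, l c ∈ Lam lev) ∧
      ∑ ζ ∈ Finset.univ.filter (· ∈ Zs H lev), (2 : ℝ) ^ finrank F (Y.comap (ev τ ζ)) ≤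
        ((Lam lev).card : ℝ) ^ Fintype.card C * 2 ^ finrank F (Zs H lev) *
          2 ^ ((finrank F (Ul lev l) : ℤ) + finrank F (Hl τ H l ⊓ Y : Submodule F W)
            - finrank F (Hl τ H l)) := by
  have : Module.Finite F W := Module.Finite.of_finite
  set Ty : Finset (C → ℕ∞) := Fintype.piFinset fun _ => Lam lev with hTy
  set g : (C → ℕ∞) → ℤ := fun l => (finrank F (Ul lev l) : ℤ) +
    finrank F (Hl τ H l ⊓ Y : Submodule F W) - finrank F (Hl τ H l) with hg
  have hne : Ty.Nonempty := ⟨fun _ => ⊤, by simp [hTy, Lam]⟩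
  obtain ⟨l, hl, hmax⟩ := Finset.exists_max_image Ty g hne
  refine ⟨l, by simpa [hTy] using hl, ?_⟩
  set q : (C → ℕ∞) → ℝ := fun l => 2 ^ finrank F (Zs H lev) *
    2 ^ ((finrank F (Hl τ H l ⊓ Y : Submodule F W) : ℤ) - finrank F (Hl τ H l)) with hq
  have h1 : ∑ ζ ∈ Finset.univ.filter (· ∈ Zs H lev), (2 : ℝ) ^ finrank F (Y.comap (ev τ ζ)) =
      ∑ u : β → C, q (lu lev u) := by
    have e1 : ∀ ζ : β → V, (2 : ℝ) ^ finrank F (Y.comap (ev τ ζ)) =
        ∑ u : β → C, if evz τ u ζ ∈ Y then (1 : ℝ) else 0 := by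
      intro ζ
      rw [Finset.sum_boole]
      have := card_filter_mem (Y.comap (ev τ ζ))
      exact_mod_cast this.symm
    simp_rw [e1]
    rw [Finset.sum_comm]
    refine Finset.sum_congr rfl fun u _ => ?_
    rw [Finset.sum_boole, Finset.filter_filter]
    have h2 := card_filter_mem (Zs H lev ⊓ Y.comap (evz τ u))
    have h3 := finrank_comap_inf (evz τ u) (Zs H lev) Y
    have h4 := finrank_map_add (evz τ u) (Zs H lev)
    rw [map_Zs τ hH h0] at h3 h4
    have h5 : ((Finset.univ.filter fun ζ => ζ ∈ Zs H lev ∧ evz τ u ζ ∈ Y).card : ℝ) =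
        2 ^ finrank F (Zs H lev ⊓ Y.comap (evz τ u) : Submodule F _) := by
      have : (Finset.univ.filter fun ζ => ζ ∈ Zs H lev ∧ evz τ u ζ ∈ Y) =
          Finset.univ.filter (· ∈ Zs H lev ⊓ Y.comap (evz τ u)) := by
        ext ζ; simp
      rw [this]; exact_mod_cast h2
    rw [h5, hq]
    simp only
    rw [← zpow_natCast, ← zpow_natCast, ← zpow_add₀ (by norm_num)]
    congr 1
    omega
  rw [h1, ← Finset.sum_fiberwise_of_maps_to (s := Finset.univ) (t := Ty) (g := lu lev)
    (fun u _ => by simpa [hTy] using lu_mem lev u)]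
  have h6 : ∀ l' ∈ Ty, ∑ u ∈ Finset.univ.filter (fun u => lu lev u = l'), q (lu lev u) ≤
      2 ^ finrank F (Zs H lev) * 2 ^ g l := by
    intro l' hl'
    have hq0 : 0 ≤ q l' := by rw [hq]; positivity
    calc ∑ u ∈ Finset.univ.filter (fun u => lu lev u = l'), q (lu lev u)
        = ∑ u ∈ Finset.univ.filter (fun u => lu lev u = l'), q l' :=
          Finset.sum_congr rfl fun u hu => by rw [(Finset.mem_filter.1 hu).2]
      _ ≤ ∑ u ∈ Finset.univ.filter (· ∈ Ul lev l'), q l' := by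
          refine Finset.sum_le_sum_of_subset_of_nonneg ?_ fun _ _ _ => hq0
          intro u hu
          have := (Finset.mem_filter.1 hu).2
          exact Finset.mem_filter.2 ⟨Finset.mem_univ _, this ▸ mem_Ul_lu lev u⟩
      _ = 2 ^ finrank F (Zs H lev) * 2 ^ g l' := by
          rw [Finset.sum_const, card_filter_mem, nsmul_eq_mul, hq, hg]
          simp only
          push_cast
          rw [mul_left_comm, ← zpow_natCast (2 : ℝ) (finrank F (Ul lev l')),
            ← zpow_add₀ (by norm_num)]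
          congr 2
          ring
      _ ≤ 2 ^ finrank F (Zs H lev) * 2 ^ g l := by
          have := hmax l' hl'
          gcongr
          norm_num
  refine (Finset.sum_le_sum h6).trans (le_of_eq ?_)
  rw [Finset.sum_const, nsmul_eq_mul, hTy, Fintype.card_piFinset]
  simp [hg, mul_assoc]

end one

/-- FL: finite first moment. -/
theorem first_moment {V β T : Type} [AddCommGroup V] [Module F V] [Finite V] [Fintype β] [Fintype T]
    {C W : T → Type} [∀ t, AddCommGroup (C t)] [∀ t, Module F (C t)] [∀ t, Fintype (C t)]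
    [∀ t, AddCommGroup (W t)] [∀ t, Module F (W t)] [∀ t, Finite (W t)]
    (τ : ∀ t, C t →ₗ[F] V →ₗ[F] W t) (Y : ∀ t, Submodule F (W t))
    {H : ℕ∞ → Submodule F V} (hH : Antitone H) (h0 : H ⊤ = ⊥) (lev : β → ℕ∞) (e : ℕ)
    (he : ∀ t, Fintype.card T * (Lam lev).card ^ Fintype.card (C t) ≤ 2 ^ e) :
    ∃ ζ : β → V, (∀ b, ζ b ∈ H (lev b)) ∧ ∀ t, ∃ l : C t → ℕ∞, (∀ c, l c ∈ Lam lev) ∧
      finrank F ((Y t).comap (ev (τ t) ζ)) + finrank F (Hl (τ t) H l) ≤
        e + finrank F (Ul lev l) + finrank F (Hl (τ t) H l ⊓ Y t : Submodule F _) := by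
  classical
  have := Fintype.ofFinite V
  choose l hl hs using fun t => avg (τ t) hH h0 lev (Y t)
  set g : T → ℤ := fun t => (finrank F (Ul lev (l t)) : ℤ) +
    finrank F (Hl (τ t) H (l t) ⊓ Y t : Submodule F _) - finrank F (Hl (τ t) H (l t)) with hg
  set K : T → ℝ := fun t => ((Lam lev).card : ℝ) ^ Fintype.card (C t) * 2 ^ g t with hK
  have hL : 0 < (Lam lev).card := Finset.card_pos.2 ⟨⊤, by simp [Lam]⟩
  have hK0 : ∀ t, 0 < K t := fun t => by
    rw [hK]; have : (0 : ℝ) < (Lam lev).card := by exact_mod_cast hL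
    positivity
  set Z := Finset.univ.filter (· ∈ Zs H lev) with hZ
  have hne : Z.Nonempty := ⟨0, by simp [hZ]⟩
  have hsum : ∑ ζ ∈ Z, ∑ t, (2 : ℝ) ^ finrank F ((Y t).comap (ev (τ t) ζ)) / K t ≤
      ∑ ζ ∈ Z, (Fintype.card T : ℝ) := by
    rw [Finset.sum_comm, Finset.sum_const, hZ, card_filter_mem, nsmul_eq_mul]
    calc _ ≤ ∑ t : T, (2 : ℝ) ^ finrank F (Zs H lev) := by
          refine Finset.sum_le_sum fun t _ => ?_
          rw [← Finset.sum_div, div_le_iff₀ (hK0 t)]
          refine le_trans (le_of_eq ?_) ((hs t).trans (le_of_eq ?_))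
          · congr
          · simp only [hK, hg]; ring
      _ = _ := by simp [mul_comm]
  obtain ⟨ζ, hζ, hle⟩ := Finset.exists_le_of_sum_le hne hsum
  refine ⟨ζ, fun b => (Finset.mem_filter.1 hζ).2 b trivial, fun t => ⟨l t, hl t, ?_⟩⟩
  have h1 : (2 : ℝ) ^ finrank F ((Y t).comap (ev (τ t) ζ)) / K t ≤ Fintype.card T :=
    le_trans (Finset.single_le_sum (f := fun t => (2 : ℝ) ^ finrank F ((Y t).comap (ev (τ t) ζ)) / K t)
      (fun t _ => div_nonneg (by positivity) (hK0 t).le) (Finset.mem_univ t)) hle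
  rw [div_le_iff₀ (hK0 t), hK] at h1
  have h2 : (Fintype.card T : ℝ) * ((Lam lev).card : ℝ) ^ Fintype.card (C t) ≤ 2 ^ e := by
    exact_mod_cast he t
  have h3 : (2 : ℝ) ^ ((finrank F ((Y t).comap (ev (τ t) ζ)) : ℕ) : ℤ) ≤ 2 ^ ((e : ℤ) + g t) := by
    rw [zpow_add₀ (by norm_num), zpow_natCast, zpow_natCast]
    refine h1.trans ?_
    simp only
    rw [← mul_assoc]
    gcongr
  have h4 := (zpow_le_zpow_iff_right₀ (by norm_num : (1 : ℝ) < 2)).1 h3
  simp only [hg] at h4
  omega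

/-- covering and full from the count -/
theorem cover_full {V C W β : Type} [AddCommGroup V] [Module F V] [AddCommGroup C] [Module F C]
    [AddCommGroup W] [Module F W] [Fintype β] [Module.Finite F C] [Module.Finite F W]
    (τ : C →ₗ[F] V →ₗ[F] W) {H : ℕ∞ → Submodule F V} (hH : Antitone H)
    (lev : β → ℕ∞) (ζ : β → V) (hζ : ∀ b, ζ b ∈ H (lev b)) (l : C → ℕ∞) (Y : Submodule F W) (e : ℕ)
    (h : finrank F (Y.comap (ev τ ζ)) + finrank F (Hl τ H l) ≤
        e + finrank F (Ul lev l) + finrank F (Hl τ H l ⊓ Y : Submodule F _)) :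
    finrank F (Y ⊓ Gt τ (Submodule.span F (Set.range ζ)) : Submodule F _) ≤
      e + finrank F (Y ⊓ Gt τ (Submodule.span F (Set.range ζ)) ⊓ Hl τ H l : Submodule F _) ∧
    finrank F (Hl τ H l) ≤ e + finrank F (Hl τ H l ⊓
      (Y ⊓ Hl τ H l ⊔ Gt τ (Submodule.span F (Set.range ζ))) : Submodule F _) := by
  set G := Gt τ (Submodule.span F (Set.range ζ)) with hG
  set U := Ul lev l
  set Hh := Hl τ H l
  set f := ev τ ζ
  have hU : U.map f ≤ Hh := map_Ul_le τ hH lev ζ hζ l
  have hr : (⊤ : Submodule F _).map f = G := by rw [Submodule.map_top, range_ev]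
  have hUG : U.map f ≤ G := hr ▸ Submodule.map_mono le_top
  have a1 := finrank_comap_inf f ⊤ Y
  rw [hr, top_inf_eq, top_inf_eq] at a1
  have a2 := finrank_comap_inf f U Y
  have a3 := finrank_map_add f U
  have a4 := Submodule.finrank_sup_add_finrank_inf_eq (U.map f) (Hh ⊓ Y)
  have a5 : U.map f ⊓ (Hh ⊓ Y) = U.map f ⊓ Y := by
    rw [← inf_assoc, inf_eq_left.2 hU]
  rw [a5] at a4
  have a6 : finrank F (U.map f ⊔ Hh ⊓ Y : Submodule F _) ≤ finrank F Hh :=
    Submodule.finrank_mono (sup_le hU inf_le_left)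
  have a7 : finrank F (U ⊓ LinearMap.ker f : Submodule F _) ≤ finrank F (LinearMap.ker f) :=
    Submodule.finrank_mono inf_le_right
  have a8 : finrank F (U.map f ⊓ Y : Submodule F _) ≤ finrank F (Y ⊓ G ⊓ Hh : Submodule F _) :=
    Submodule.finrank_mono (le_inf (le_inf inf_le_right (inf_le_left.trans hUG))
      (inf_le_left.trans hU))
  have a9 : finrank F (U.map f ⊔ Hh ⊓ Y : Submodule F _) ≤
      finrank F (Hh ⊓ (Y ⊓ Hh ⊔ G) : Submodule F _) :=
    Submodule.finrank_mono (le_inf (sup_le hU inf_le_left)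
      (sup_le (hUG.trans le_sup_right) ((inf_comm Hh Y).le.trans le_sup_left)))
  have a10 : finrank F (U.map f ⊓ Y : Submodule F _) ≤ finrank F (G ⊓ Y : Submodule F _) :=
    Submodule.finrank_mono (inf_le_inf_right _ hUG)
  rw [inf_comm Y G]
  rw [inf_comm Y G] at a8
  constructor <;> omega

end Pool.Agent.Lib.MP_1e63be_al.Z9
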