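import Pool.Agent.Lib.MP_1e63be_al.Z9.UP
import Pool.Agent.Lib.MP_1e63be_al.Z9.FG

set_option linter.unusedSectionVars false

namespace Pool.Agent.Lib.MP_1e63be_al.Z9

open Module Filter Topology

/-- the tensor map -/
def tau (μ ι X : Type) [AddCommGroup X] [Module F X] :
    (μ → F) →ₗ[F] (ι → X) →ₗ[F] (μ × ι → X) :=
  LinearMap.mk₂ F (fun c v q => c q.1 • v q.2)
    (fun _ _ _ => by funext q; simp [add_smul]) (fun _ _ _ => by funext q; simp [mul_smul])
    (fun _ _ _ => by funext q; simp) (fun a c v => by funext q; simp [smul_comm a])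

theorem tau_apply {μ ι X : Type} [AddCommGroup X] [Module F X] (c : μ → F) (v : ι → X)
    (q : μ × ι) : tau μ ι X c v q = c q.1 • v q.2 := rfl

open Classical in
noncomputable def tm {μ ι : Type} (c : μ → F) : μ × ι → ι → F :=
  fun q a => if q.2 = a then c q.1 else 0

theorem tau_eq_mat {μ ι : Type} [Fintype ι] (X : Type) [AddCommGroup X] [Module F X] (c : μ → F) :
    tau μ ι X c = mat (tm c) X := by
  ext1 v
  funext q
  classical
  rw [tau_apply, mat_apply, Finset.sum_eq_single q.2]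
  · simp [tm]
  · intro b _ hb
    simp [tm, Ne.symm hb]
  · simp

namespace Par
variable {p : Par} {ι μ : Type} [Fintype ι] [Fintype μ]

theorem hat_ext (H : ℕ → p.Fam ι) (x : ℕ∞) :
    hat (fun i => ext (fun j => H j i) x) = ext (fun j => hat (H j)) x := by
  induction x using ENat.recTopCoe with
  | top => exact hat_bot
  | coe k => rfl

theorem hat_Hl (H : ℕ → p.Fam ι) (l : (μ → F) → ℕ∞) :
    hat (fun i => Hl (tau μ ι (p.V i)) (ext fun j => H j i) l) =
      Hl (tau μ ι p.M) (ext fun j => hat (H j)) l := by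
  unfold Hl
  rw [hat_iSup]
  refine iSup_congr fun c => ?_
  simp only [tau_eq_mat]
  rw [hat_map, hat_ext]

theorem hat_Gt (G : p.Fam ι) :
    hat (fun i => Gt (tau μ ι (p.V i)) (G i)) = Gt (tau μ ι p.M) (hat G) := by
  unfold Gt
  rw [hat_iSup]
  refine iSup_congr fun c => ?_
  simp only [tau_eq_mat]
  rw [hat_map]

/-- ultralimits of types -/
theorem lim_type (H : ℕ → p.Fam ι) (ha : ∀ i, Antitone fun j => H j i)
    (h0 : Tendsto (fun j => rk (H j)) atTop (𝓝 0)) (x : p.I → ℕ∞) :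
    ∃ y : ℕ∞, (∀ᶠ i in (p.U : Filter p.I), ext (fun j => H j i) y ≤ ext (fun j => H j i) (x i)) ∧
      p.sm fun i => dd (ext (fun j => H j i) (x i)) (ext (fun j => H j i) y) := by
  by_cases h : ∃ j : ℕ, ∀ᶠ i in (p.U : Filter p.I), x i = j
  · obtain ⟨j, hj⟩ := h
    exact ⟨j, hj.mono fun i hi => by rw [hi],
      sm_zero.of_le (hj.mono fun i hi => by rw [hi, dd_of_le le_rfl])⟩
  · refine ⟨⊤, Eventually.of_forall fun i => by simp, ?_⟩
    have h1 : ∀ j : ℕ, ∀ᶠ i in (p.U : Filter p.I), (j : ℕ∞) ≤ x i := by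
      intro j
      have h2 : ∀ k : ℕ, ∀ᶠ i in (p.U : Filter p.I), x i ≠ k := fun k =>
        Ultrafilter.eventually_not.2 fun hk => h ⟨k, hk⟩
      have h3 : ∀ᶠ i in (p.U : Filter p.I), ∀ k ∈ Finset.range j, x i ≠ k :=
        (eventually_all_finset _).2 fun k _ => h2 k
      refine h3.mono fun i hi => ?_
      induction hx : x i using ENat.recTopCoe with
      | top => exact le_top
      | coe k =>
        by_contra hlt
        have : k < j := by simpa using hlt
        exact hi k (Finset.mem_range.2 this) hx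
    rw [sm, tendsto_order]
    refine ⟨fun a ha' => Eventually.of_forall fun i => ha'.trans_le (by positivity), fun a ha' => ?_⟩
    obtain ⟨j, hj⟩ := (h0.eventually (gt_mem_nhds ha')).exists
    refine (((tendsto_rk (H j)).eventually (gt_mem_nhds hj)).and (h1 j)).mono fun i hi => ?_
    refine lt_of_le_of_lt ?_ hi.1
    have h4 : dd (ext (fun j => H j i) (x i)) (ext (fun j => H j i) ⊤) ≤ finrank F (H j i) :=
      (dd_le _ _).trans (Submodule.finrank_mono (ext_anti (ha i) hi.2))
    have : (dd (ext (fun j => H j i) (x i)) (ext (fun j => H j i) ⊤) : ℝ) ≤ finrank F (H j i) := by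
      exact_mod_cast h4
    gcongr

theorem lim_cover (H : ℕ → p.Fam ι) (ha : ∀ i, Antitone fun j => H j i)
    (h0 : Tendsto (fun j => rk (H j)) atTop (𝓝 0)) (G : p.Fam ι) (Y : p.Fam (μ × ι))
    (e : p.I → ℕ) (he : p.sm e)
    (h : ∀ᶠ i in (p.U : Filter p.I), ∃ l : (μ → F) → ℕ∞,
      dd (Y i ⊓ Gt (tau μ ι _) (G i)) (Hl (tau μ ι _) (ext fun j => H j i) l) ≤ e i ∧
      dd (Hl (tau μ ι _) (ext fun j => H j i) l)
        (Y i ⊓ Hl (tau μ ι _) (ext fun j => H j i) l ⊔ Gt (tau μ ι _) (G i)) ≤ e i) :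
    ∃ l : (μ → F) → ℕ∞,
      hat Y ⊓ Gt (tau μ ι _) (hat G) ≤ Hl (tau μ ι _) (ext fun j => hat (H j)) l ∧
      Hl (tau μ ι _) (ext fun j => hat (H j)) l ≤
        hat Y ⊓ Hl (tau μ ι _) (ext fun j => hat (H j)) l ⊔ Gt (tau μ ι _) (hat G) := by
  classical
  obtain ⟨L, hL⟩ := h.choice
  choose l hl1 hl2 using fun c => lim_type H ha h0 fun i => L i c
  have k1 : ∀ᶠ i in (p.U : Filter p.I), Hl (tau μ ι (p.V i)) (ext fun j => H j i) l ≤
      Hl (tau μ ι _) (ext fun j => H j i) (L i) :=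
    (eventually_all.2 hl1).mono fun i hi => iSup_mono fun c => Submodule.map_mono (hi c)
  have k2 : p.sm fun i => dd (Hl (tau μ ι (p.V i)) (ext fun j => H j i) (L i))
      (Hl (tau μ ι _) (ext fun j => H j i) l) := by
    refine (sm_sum hl2).mono fun i => (dd_iSup_le _ _).trans (Finset.sum_le_sum fun c _ => ?_)
    refine le_trans (dd_mono le_rfl ?_) (dd_map (tau μ ι (p.V i) c) _ _)
    exact le_iSup (fun c => (ext (fun j => H j i) (l c)).map (tau μ ι (p.V i) c)) c
  refine ⟨l, ?_, ?_⟩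
  · rw [← hat_Gt, ← hat_Hl, ← hat_inf, hat_le_iff]
    exact (he.add k2).of_le (hL.mono fun i hi =>
      (dd_tri _ _ _).trans (Nat.add_le_add_right hi.1 _))
  · rw [← hat_Gt, ← hat_Hl, ← hat_inf, ← hat_sup, hat_le_iff]
    refine (he.add k2).of_le ((hL.and k1).mono fun i hi => ?_)
    refine (dd_mono hi.2 le_rfl).trans ((dd_tri _ _ _).trans (Nat.add_le_add hi.1.2 ?_))
    refine (dd_sup _ _ _).trans ?_
    rw [dd_of_le (A := Gt (tau μ ι (p.V i)) (G i)) le_sup_right, add_zero]
    refine (dd_mono le_rfl le_sup_left).trans ((dd_inf _ _ _).trans ?_)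
    rw [dd_of_le inf_le_left, zero_add]
    exact dd_mono inf_le_right le_rfl

theorem tendsto_S (hn : Tendsto p.n p.U atTop) (A : p.Fam ι) {r : ℝ} (h0 : 0 ≤ r) (h1 : r ≤ rk A) :
    Tendsto (fun i => ((min ⌊r * p.n i⌋₊ (finrank F (A i)) : ℕ) : ℝ) / p.n i) p.U (𝓝 r) := by
  have a : Tendsto (fun i => (⌊r * p.n i⌋₊ : ℝ) / p.n i) p.U (𝓝 r) :=
    (tendsto_nat_floor_mul_div_atTop h0).comp (tendsto_natCast_atTop_atTop.comp hn)
  have b := a.min (tendsto_rk A)
  rw [min_eq_left h1] at b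
  refine b.congr fun i => ?_
  rw [Nat.cast_min, min_div_div_right (by positivity)]

theorem lim_rank (hn : Tendsto p.n p.U atTop) (H : ℕ → p.Fam ι) (r : ℕ → ℝ) (h0 : ∀ j, 0 ≤ r j)
    (h1 : ∀ j, r j ≤ rk (H j)) (h2 : Antitone fun j => rk (H j) - r j) (A : p.Fam ι) (j : ℕ)
    (e : p.I → ℕ) (he : p.sm e)
    (h : ∀ᶠ i in (p.U : Filter p.I),
      min ⌊r j * p.n i⌋₊ (finrank F (H j i)) ≤ finrank F (A i) + e i ∧
      ∃ k ≤ j, finrank F (A i) + finrank F (H k i) ≤
        e i + min ⌊r k * p.n i⌋₊ (finrank F (H k i)) + finrank F (H j i)) :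
    rk A = r j := by
  apply le_antisymm
  · have h3 : ∀ᶠ i in (p.U : Filter p.I), ∃ k ∈ Set.Iic j, finrank F (A i) + finrank F (H k i) ≤
        e i + min ⌊r k * p.n i⌋₊ (finrank F (H k i)) + finrank F (H j i) := h.mono fun i hi => hi.2
    obtain ⟨k, hk, h4⟩ := (Ultrafilter.eventually_exists_mem_iff (Set.finite_Iic j)).1 h3
    have h5 : rk A + rk (H k) ≤ 0 + r k + rk (H j) := by
      refine le_of_tendsto_of_tendsto ((tendsto_rk A).add (tendsto_rk (H k)))
        ((Tendsto.add he (tendsto_S hn (H k) (h0 k) (h1 k))).add (tendsto_rk (H j))) (h4.mono fun i hi => ?_)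
      simp only
      rw [← add_div, ← add_div, ← add_div]
      have : (finrank F (A i) : ℝ) + finrank F (H k i) ≤
        e i + (min ⌊r k * p.n i⌋₊ (finrank F (H k i)) : ℕ) + finrank F (H j i) := by exact_mod_cast hi
      gcongr
    have := h2 (show k ≤ j from hk)
    simp only at this
    linarith
  · have h5 : r j ≤ rk A + 0 := by
      refine le_of_tendsto_of_tendsto (tendsto_S hn (H j) (h0 j) (h1 j))
        ((tendsto_rk A).add he) (h.mono fun i hi => ?_)
      simp only
      rw [← add_div]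
      have : ((min ⌊r j * p.n i⌋₊ (finrank F (H j i)) : ℕ) : ℝ) ≤ finrank F (A i) + e i := by
        exact_mod_cast hi.1
      gcongr
    linarith

end Par

/-- The parameters of the model. -/
noncomputable def par (J : Type) : Par where
  I := Finset J
  U := Ultrafilter.of atTop
  n i := (i.card + 1) * ((i.card + 2) * (i.card + 3))
  pos i := by positivity

theorem par_card (J : Type) [Infinite J] :
    Tendsto (fun i : (par J).I => Finset.card i) (par J).U atTop := by
  classical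
  exact (tendsto_card_atTop_atTop).mono_left (Ultrafilter.of_le (atTop : Filter (Finset J)))

theorem par_mem (J : Type) (a : J) : 
    ∀ᶠ i : (par J).I in ((par J).U : Filter (par J).I), a ∈ (show Finset J from i) := by
  classical
  have : ∀ᶠ i : Finset J in atTop, a ∈ i :=
    (eventually_ge_atTop {a}).mono fun i hi => hi (Finset.mem_singleton_self a)
  exact this.filter_mono (Ultrafilter.of_le (atTop : Filter (Finset J)))

theorem par_n (J : Type) [Infinite J] : Tendsto (par J).n (par J).U atTop :=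
  tendsto_atTop_mono (fun i : Finset J => (Nat.le_succ i.card).trans
    (Nat.le_mul_of_pos_right _ (by positivity))) (par_card J)

theorem par_e (J : Type) [Infinite J] :
    (par J).sm fun i : Finset J => (i.card + 2) * (i.card + 3) := by
  have := tendsto_one_div_add_atTop_nhds_zero_nat (𝕜 := ℝ).comp (par_card J)
  refine this.congr fun i => ?_
  show 1 / ((i.card : ℝ) + 1) = (((i.card + 2) * (i.card + 3) : ℕ) : ℝ) /
    (((i.card + 1) * ((i.card + 2) * (i.card + 3)) : ℕ) : ℝ)
  push_cast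
  field_simp

theorem num_bound (s t : ℕ) (h : t ≤ s) :
    (t + (s + 2)) * (s + 2) ^ (s + 2) ≤ 2 ^ ((s + 2) * (s + 3)) := by
  have h1 : s + 1 ≤ 2 ^ (s + 1) := (Nat.lt_two_pow_self).le
  have h2 : t + (s + 2) ≤ 2 ^ (s + 2) := by rw [pow_succ]; omega
  have h3 : (s + 2) ^ (s + 2) ≤ (2 ^ (s + 2)) ^ (s + 2) :=
    Nat.pow_le_pow_left (Nat.lt_two_pow_self).le _
  calc _ ≤ 2 ^ (s + 2) * (2 ^ (s + 2)) ^ (s + 2) := Nat.mul_le_mul h2 h3
    _ = _ := by rw [← pow_mul, ← pow_add]; congr 1; ring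

open Par in
/-- GEN for the model. -/
theorem hat_gen {J : Type} [Infinite J] {ι T : Type} [Fintype ι] (em : T → J)
    (hem : Function.Injective em) (μ : T → Type) [∀ t, Fintype (μ t)]
    (Y : ∀ t, (par J).Fam (μ t × ι)) (H : ℕ → (par J).Fam ι) (hH : Antitone fun j => hat (H j))
    (h0 : Tendsto (fun j => rk (H j)) atTop (𝓝 0)) (r : ℕ → ℝ) (hr : Antitone r)
    (hr0 : ∀ j, 0 ≤ r j) (hr1 : ∀ j, r j ≤ rk (H j)) (hr2 : Antitone fun j => rk (H j) - r j) :
    ∃ G : (par J).Fam ι, hat G ≤ hat (H 0) ∧ (∀ j, rk (fun i => G i ⊓ H j i) = r j) ∧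
      ∀ t, ∃ l : (μ t → F) → ℕ∞,
        hat (Y t) ⊓ Gt (tau (μ t) ι _) (hat G) ≤ Hl (tau (μ t) ι _) (ext fun j => hat (H j)) l ∧
        Hl (tau (μ t) ι _) (ext fun j => hat (H j)) l ≤
          hat (Y t) ⊓ Hl (tau (μ t) ι _) (ext fun j => hat (H j)) l ⊔ Gt (tau (μ t) ι _) (hat G) := by
  classical
  obtain ⟨K, ha, e⟩ := exact_chain H hH
  have er : ∀ j, rk (K j) = rk (H j) := fun j => rk_congr (e j)
  let Ti : Finset J → Type := fun i => {t : T // em t ∈ i ∧ Nat.card (μ t → F) ≤ i.card + 2}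
  have hinj : ∀ i, Function.Injective fun t : Ti i => (⟨em t.1, t.2.1⟩ : i) :=
    fun i a b h => Subtype.ext (hem (congrArg Subtype.val h))
  have hfin : ∀ i, Finite (Ti i) := fun i => Finite.of_injective _ (hinj i)
  let ft : ∀ i, Fintype (Ti i) := fun i => Fintype.ofFinite _
  have hc : ∀ i, Fintype.card (Ti i) ≤ i.card := fun i => by
    simpa using Fintype.card_le_of_injective _ (hinj i)
  choose G hG0 hG1 hG2 using fun i : Finset J =>
    fin_gen (V := ι → (par J).V i) (T := Ti i) (C := fun t => μ t.1 → F)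
      (W := fun t => μ t.1 × ι → (par J).V i) (fun t => tau (μ t.1) ι _) (fun t => Y t.1 i)
      (H := fun j => K j i) (ha i)
      (S := fun j => min ⌊r j * (par J).n i⌋₊ (finrank F (K j i)))
      (fun a b hab => min_le_min (Nat.floor_mono (mul_le_mul_of_nonneg_right (hr hab)
        (by positivity))) (Submodule.finrank_mono (ha i hab)))
      (fun j => min_le_right _ _) i.card (i.card + 2) ((i.card + 2) * (i.card + 3))
      (fun t => t.2.2) (by omega) (num_bound _ _ (hc i))
  refine ⟨G, (hat_mono hG0).trans (e 0).le, fun j => ?_, fun t => ?_⟩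
  · have : rk (fun i => G i ⊓ H j i) = rk (fun i => G i ⊓ K j i) :=
      rk_congr (by rw [hat_inf, hat_inf, e])
    rw [this]
    refine lim_rank (par_n J) K r hr0 (fun j => by rw [er]; exact hr1 j)
      (by simp only [er]; exact hr2) _ j _ (par_e J) ?_
    exact ((par_card J).eventually (eventually_ge_atTop j)).mono fun i hi => hG1 i j hi
  · have := lim_cover K ha (by simp only [er]; exact h0) G (Y t) _ (par_e J)
      (((par_mem J (em t)).and ((par_card J).eventually
        (eventually_ge_atTop (Nat.card (μ t → F))))).mono fun i hi =>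
          hG2 i ⟨t, hi.1, hi.2.trans (by omega)⟩)
    simpa only [e] using this

end Pool.Agent.Lib.MP_1e63be_al.Z9
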