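import Pool.Agent.Lib.MP_1e63be_al.Z9.DD

set_option linter.unusedSectionVars false

namespace Pool.Agent.Lib.MP_1e63be_al.Z9

open Module Filter Topology

/-- Parameters of the rank ultraproduct. -/
structure Par where
  I : Type
  U : Ultrafilter I
  n : I → ℕ
  pos : ∀ i, 0 < n i

namespace Par
variable (p : Par)

abbrev V (i : p.I) : Type := Fin (p.n i) → F

/-- negligible families of numbers -/
def sm (f : p.I → ℕ) : Prop := Tendsto (fun i => (f i : ℝ) / p.n i) p.U (𝓝 0)

variable {p}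

theorem sm.of_le {f g : p.I → ℕ} (h : p.sm g) (k : ∀ᶠ i in (p.U : Filter p.I), f i ≤ g i) :
    p.sm f := by
  refine tendsto_of_tendsto_of_tendsto_of_le_of_le' tendsto_const_nhds h
    (Eventually.of_forall fun i => by positivity) (k.mono fun i hi => ?_)
  have : (f i : ℝ) ≤ g i := by exact_mod_cast hi
  gcongr

theorem sm.mono {f g : p.I → ℕ} (h : p.sm g) (k : ∀ i, f i ≤ g i) : p.sm f :=
  h.of_le (Eventually.of_forall k)

theorem sm.add {f g : p.I → ℕ} (h : p.sm f) (k : p.sm g) : p.sm fun i => f i + g i := by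
  have := Tendsto.add h k
  simp only [add_zero] at this
  refine this.congr fun i => ?_
  push_cast; ring

theorem sm_zero : p.sm fun _ => 0 := by simp [sm]

theorem sm_of_eq_zero {f : p.I → ℕ} (h : ∀ i, f i = 0) : p.sm f :=
  sm_zero.mono fun i => (h i).le

theorem sm_sum {ι : Type} [Fintype ι] {f : ι → p.I → ℕ} (h : ∀ a, p.sm (f a)) :
    p.sm fun i => ∑ a, f a i := by
  have := tendsto_finsetSum (Finset.univ : Finset ι) fun a _ => h a
  simp only [Finset.sum_const_zero] at this
  refine this.congr fun i => ?_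
  push_cast; rw [Finset.sum_div]

theorem sm.of_min {f : p.I → ℕ} (h : p.sm fun i => min (p.n i) (f i)) : p.sm f := by
  refine h.of_le ?_
  have := h.eventually (gt_mem_nhds (show (0 : ℝ) < 1 by norm_num))
  refine this.mono fun i hi => ?_
  have hp : (0 : ℝ) < p.n i := by exact_mod_cast p.pos i
  rw [div_lt_one hp] at hi
  have : min (p.n i) (f i) < p.n i := by exact_mod_cast hi
  omega

variable (p)

abbrev W : Type := ℕ → ∀ i, p.V i →ₗ[F] p.V i

/-- null sequences -/
def null : Submodule F p.W where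
  carrier := {w | ∀ᶠ k in atTop, p.sm fun i => finrank F (LinearMap.range (w k i))}
  zero_mem' := Eventually.of_forall fun k => sm_of_eq_zero fun i => by
    simp [LinearMap.range_zero]
  add_mem' {a b} ha hb := (ha.and hb).mono fun k hk => (hk.1.add hk.2).mono fun i => by
    have := dd_range_add (a k i) (b k i) ⊥
    simp only [dd_bot] at this
    exact this
  smul_mem' c a ha := by
    rcases (show c = 0 ∨ c = 1 by revert c; decide) with rfl | rfl
    · rw [zero_smul]
      exact Eventually.of_forall fun k => sm_of_eq_zero fun i => by simp [LinearMap.range_zero]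
    · rw [one_smul]; exact ha

/-- The ambient space. -/
abbrev M : Type := p.W ⧸ p.null

abbrev Fam (ι : Type) : Type := ∀ i, Submodule F (ι → p.V i)

variable {p} {ι κ : Type} [Fintype ι] [Fintype κ]

def pw (w : ι → p.W) (k : ℕ) (i : p.I) : p.V i →ₗ[F] (ι → p.V i) := LinearMap.pi fun a => w a k i

def unpw (f : ℕ → ∀ i, p.V i →ₗ[F] (ι → p.V i)) : ι → p.W :=
  fun a k i => LinearMap.proj a ∘ₗ f k i

@[simp] theorem pw_unpw (f : ℕ → ∀ i, p.V i →ₗ[F] (ι → p.V i)) : pw (unpw f) = f := by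
  funext k i; ext v a; rfl

def cl (w : ι → p.W) : ι → p.M := fun a => p.null.mkQ (w a)

theorem mk_surj (x : ι → p.M) : ∃ w, cl w = x := by
  choose w hw using fun a => p.null.mkQ_surjective (x a)
  exact ⟨w, funext hw⟩

theorem mk_add (w w' : ι → p.W) : cl (w + w') = cl w + cl w' := by
  funext a; simp [cl]

theorem mk_zero : cl (0 : ι → p.W) = 0 := by funext a; simp [cl]

theorem pw_add (w w' : ι → p.W) (k i) : pw (w + w') k i = pw w k i + pw w' k i := by
  ext v a; rfl

theorem pw_sub (w w' : ι → p.W) (k i) : pw (w - w') k i = pw w k i - pw w' k i := by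
  ext v a; rfl

theorem mk_eq_iff (w w' : ι → p.W) : cl w = cl w' ↔
    ∀ᶠ k in atTop, p.sm fun i => finrank F (LinearMap.range (pw w k i - pw w' k i)) := by
  constructor
  · intro h
    have h1 : ∀ a, w a - w' a ∈ p.null := fun a =>
      (Submodule.Quotient.eq _).1 (congrFun h a)
    have h2 : ∀ᶠ k in atTop, ∀ a, p.sm fun i => finrank F (LinearMap.range ((w a - w' a) k i)) :=
      eventually_all.2 h1
    refine h2.mono fun k hk => (sm_sum hk).mono fun i => ?_
    rw [← pw_sub]
    exact range_pi_le _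
  · intro h
    funext a
    refine (Submodule.Quotient.eq _).2 (h.mono fun k hk => hk.mono fun i => ?_)
    have : (w a - w' a) k i = LinearMap.proj a ∘ₗ (pw w k i - pw w' k i) := by ext v; rfl
    rw [this, LinearMap.range_comp]
    exact Submodule.finrank_map_le _ _

/-- approximate containment -/
def In (A : p.Fam ι) (w : ι → p.W) : Prop :=
  ∀ᶠ k in atTop, p.sm fun i => dd (LinearMap.range (pw w k i)) (A i)

theorem In.congr {A : p.Fam ι} {w w' : ι → p.W} (h : In A w') (e : cl w = cl w') : In A w :=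
  (h.and ((mk_eq_iff _ _).1 e)).mono fun _ hk => (hk.1.add hk.2).mono fun _ => dd_range_le _ _ _

theorem In.of_le {A : p.Fam ι} {w : ι → p.W}
    (h : ∀ᶠ k in atTop, ∀ i, LinearMap.range (pw w k i) ≤ A i) : In A w :=
  h.mono fun _ hk => sm_of_eq_zero fun i => dd_of_le (hk i)

/-- the subspace of a family -/
def hat (A : p.Fam ι) : Submodule F (ι → p.M) where
  carrier := {x | ∃ w, cl w = x ∧ In A w}
  zero_mem' := ⟨0, mk_zero, In.of_le (Eventually.of_forall fun k i => by
    rintro _ ⟨v, rfl⟩; exact (A i).zero_mem)⟩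
  add_mem' := by
    rintro _ _ ⟨w, rfl, hw⟩ ⟨w', rfl, hw'⟩
    refine ⟨w + w', mk_add _ _, (hw.and hw').mono fun k hk => (hk.1.add hk.2).mono fun i => ?_⟩
    rw [pw_add]; exact dd_range_add _ _ _
  smul_mem' c a ha := by
    rcases (show c = 0 ∨ c = 1 by revert c; decide) with rfl | rfl
    · rw [zero_smul]
      exact ⟨0, mk_zero, In.of_le (Eventually.of_forall fun k i => by
        rintro _ ⟨v, rfl⟩; exact (A i).zero_mem)⟩
    · rw [one_smul]; exact ha

theorem mk_mem_hat {A : p.Fam ι} {w : ι → p.W} : cl w ∈ hat A ↔ In A w :=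
  ⟨fun ⟨_, e, h⟩ => h.congr e.symm, fun h => ⟨w, rfl, h⟩⟩

theorem hat_le_iff {A B : p.Fam ι} : hat A ≤ hat B ↔ p.sm fun i => dd (A i) (B i) := by
  constructor
  · intro h
    choose w hw hd using fun i => detect (p.n i) (A i) (B i)
    have h1 : In A (unpw fun _ => w) := In.of_le (Eventually.of_forall fun k i => by
      rw [pw_unpw]; exact hw i)
    obtain ⟨k, hk⟩ := (mk_mem_hat.1 (h (mk_mem_hat.2 h1))).exists
    rw [pw_unpw] at hk
    exact (hk.mono hd).of_min
  · rintro h _ ⟨w, rfl, hw⟩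
    exact mk_mem_hat.2 (hw.mono fun k hk => (hk.add h).mono fun i => dd_tri _ _ _)

theorem hat_mono {A B : p.Fam ι} (h : ∀ i, A i ≤ B i) : hat A ≤ hat B :=
  hat_le_iff.2 (sm_of_eq_zero fun i => dd_of_le (h i))

theorem hat_inf (A B : p.Fam ι) : hat (fun i => A i ⊓ B i) = hat A ⊓ hat B := by
  refine le_antisymm (le_inf (hat_mono fun _ => inf_le_left) (hat_mono fun _ => inf_le_right)) ?_
  rintro x ⟨h1, h2⟩
  obtain ⟨w, rfl⟩ := mk_surj x
  exact mk_mem_hat.2 (((mk_mem_hat.1 h1).and (mk_mem_hat.1 h2)).mono fun k hk =>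
    (hk.1.add hk.2).mono fun i => dd_inf _ _ _)

theorem hat_top : hat (fun _ => ⊤ : p.Fam ι) = ⊤ := by
  rw [eq_top_iff]
  intro x _
  obtain ⟨w, rfl⟩ := mk_surj x
  exact mk_mem_hat.2 (In.of_le (Eventually.of_forall fun _ _ => le_top))

theorem hat_bot : hat (fun _ => ⊥ : p.Fam ι) = ⊥ := by
  rw [eq_bot_iff]
  rintro _ ⟨w, rfl, hw⟩
  rw [Submodule.mem_bot, ← mk_zero, mk_eq_iff]
  refine hw.mono fun k hk => hk.mono fun i => ?_
  have : pw (0 : ι → p.W) k i = 0 := by ext v a; rfl
  rw [this, sub_zero, dd_bot]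

end Par

/-- matrix maps -/
def mat {ι κ : Type} [Fintype ι] (c : κ → ι → F) (X : Type) [AddCommGroup X] [Module F X] :
    (ι → X) →ₗ[F] (κ → X) where
  toFun x b := ∑ a, c b a • x a
  map_add' x y := by funext b; simp [Finset.sum_add_distrib]
  map_smul' r x := by funext b; simp [Finset.smul_sum, smul_comm r]

theorem mat_apply {ι κ : Type} [Fintype ι] (c : κ → ι → F) {X : Type} [AddCommGroup X] [Module F X]
    (x : ι → X) (b : κ) : mat c X x b = ∑ a, c b a • x a := rfl

namespace Par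
variable {p : Par} {ι κ : Type} [Fintype ι] [Fintype κ]

theorem mk_mat (c : κ → ι → F) (w : ι → p.W) : cl (mat c _ w) = mat c _ (cl w) := by
  funext b
  simp [cl, mat_apply]

theorem pw_mat (c : κ → ι → F) (w : ι → p.W) (k i) :
    pw (mat c _ w) k i = mat c _ ∘ₗ pw w k i := by
  ext v b
  simp [pw, mat_apply, Finset.sum_apply, LinearMap.sum_apply]

theorem hat_comap (c : κ → ι → F) (B : p.Fam κ) :
    hat (fun i => (B i).comap (mat c _)) = (hat B).comap (mat c _) := by
  ext x
  obtain ⟨w, rfl⟩ := mk_surj x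
  rw [Submodule.mem_comap, ← mk_mat, mk_mem_hat, mk_mem_hat]
  simp only [In, pw_mat, LinearMap.range_comp, dd_comap]

theorem lift_seq (c : κ → ι → F) (A : ℕ → p.Fam ι) (w : κ → p.W)
    (h : ∀ᶠ k in atTop, p.sm fun i => dd (LinearMap.range (pw w k i)) ((A k i).map (mat c _))) :
    ∃ y : ι → p.W, (∀ k i, LinearMap.range (pw y k i) ≤ A k i) ∧ mat c _ (cl y) = cl w := by
  choose y hy hd using fun k i => approx_lift (mat c (p.V i)) (A k i) (pw w k i)
  refine ⟨unpw y, by simpa using hy, ?_⟩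
  rw [← mk_mat, mk_eq_iff]
  refine h.mono fun k hk => hk.mono fun i => ?_
  rw [pw_mat, pw_unpw]
  exact hd k i

theorem hat_map (c : κ → ι → F) (A : p.Fam ι) :
    hat (fun i => (A i).map (mat c _)) = (hat A).map (mat c _) := by
  apply le_antisymm
  · rintro _ ⟨w, rfl, hw⟩
    obtain ⟨y, hy, e⟩ := lift_seq c (fun _ => A) w hw
    exact ⟨cl y, mk_mem_hat.2 (In.of_le (Eventually.of_forall hy)), e⟩
  · rw [Submodule.map_le_iff_le_comap, ← hat_comap]
    exact hat_mono fun i => Submodule.le_comap_map _ _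

theorem hat_sup (A B : p.Fam ι) : hat (fun i => A i ⊔ B i) = hat A ⊔ hat B := by
  refine le_antisymm ?_ (sup_le (hat_mono fun _ => le_sup_left) (hat_mono fun _ => le_sup_right))
  rintro _ ⟨w, rfl, hw⟩
  choose y hy hd using fun k i => approx_lift (LinearMap.coprod LinearMap.id LinearMap.id)
    ((A i).prod (B i)) (pw w k i)
  have e : cl w = cl (unpw fun k i => LinearMap.fst _ _ _ ∘ₗ y k i) +
      cl (unpw fun k i => LinearMap.snd _ _ _ ∘ₗ y k i) := by
    rw [← mk_add, eq_comm, mk_eq_iff]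
    refine hw.mono fun k hk => hk.mono fun i => ?_
    have h1 := hd k i
    rw [LinearMap.map_coprod_prod, Submodule.map_id, Submodule.map_id] at h1
    rw [pw_add, pw_unpw, pw_unpw]
    exact h1
  rw [e]
  refine Submodule.add_mem_sup (mk_mem_hat.2 (In.of_le (Eventually.of_forall fun k i => ?_)))
    (mk_mem_hat.2 (In.of_le (Eventually.of_forall fun k i => ?_)))
  · rw [pw_unpw]; rintro _ ⟨v, rfl⟩; exact (hy k i ⟨v, rfl⟩).1
  · rw [pw_unpw]; rintro _ ⟨v, rfl⟩; exact (hy k i ⟨v, rfl⟩).2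

theorem hat_iSup {C : Type} [Finite C] (A : C → p.Fam ι) :
    hat (fun i => ⨆ c, A c i) = ⨆ c, hat (A c) := by
  classical
  have := Fintype.ofFinite C
  have : ∀ s : Finset C, hat (fun i => ⨆ c ∈ s, A c i) = ⨆ c ∈ s, hat (A c) := by
    intro s
    induction s using Finset.induction_on with
    | empty => simpa using hat_bot
    | insert a s ha ih =>
      simp only [Finset.iSup_insert]
      rw [hat_sup, ih]
  simpa using this Finset.univ

/-- exactly decreasing representatives -/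
theorem exact_chain (K : ℕ → p.Fam ι) (h : Antitone fun j => hat (K j)) :
    ∃ K' : ℕ → p.Fam ι, (∀ i, Antitone fun j => K' j i) ∧ ∀ j, hat (K' j) = hat (K j) := by
  let K' : ℕ → p.Fam ι := fun j => Nat.rec (K 0) (fun j A i => A i ⊓ K (j + 1) i) j
  refine ⟨K', fun i => antitone_nat_of_succ_le fun j => inf_le_left, fun j => ?_⟩
  induction j with
  | zero => rfl
  | succ j ih =>
    show hat (fun i => K' j i ⊓ K (j + 1) i) = _
    rw [hat_inf, ih]
    exact inf_eq_right.2 (h (Nat.le_succ j))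

theorem sat1 (c : κ → ι → F) (K : ℕ → p.Fam ι) (h : Antitone fun j => hat (K j)) (y : κ → p.M)
    (hy : ∀ j, ∃ x ∈ hat (K j), mat c _ x = y) : ∃ x, (∀ j, x ∈ hat (K j)) ∧ mat c _ x = y := by
  classical
  obtain ⟨K', ha, e⟩ := exact_chain K h
  obtain ⟨w, rfl⟩ := mk_surj y
  have h1 : ∀ j, In (fun i => (K' j i).map (mat c _)) w := fun j => by
    rw [← mk_mem_hat, hat_map, e]; exact hy j
  choose N hN using fun j => eventually_atTop.1 (h1 j)
  let J : ℕ → ℕ := fun k => Nat.findGreatest (fun j => N j ≤ k) k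
  obtain ⟨x, hx, ex⟩ := lift_seq c (fun k => K' (J k)) w (eventually_atTop.2 ⟨N 0, fun k hk =>
    hN (J k) k (Nat.findGreatest_spec (P := fun j => N j ≤ k) (Nat.zero_le k) hk)⟩)
  refine ⟨cl x, fun j => ?_, ex⟩
  rw [← e, mk_mem_hat]
  refine In.of_le (eventually_atTop.2 ⟨max j (N j), fun k hk i => (hx k i).trans (ha i ?_)⟩)
  exact Nat.le_findGreatest (P := fun j => N j ≤ k) (le_of_max_le_left hk) (le_of_max_le_right hk)

theorem sat2 (K : ℕ → p.Fam ι) (h : Antitone fun j => hat (K j)) (A : p.Fam ι)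
    (hA : ∀ x, (∀ j, x ∈ hat (K j)) → x ∈ hat A) : ∃ j, hat (K j) ≤ hat A := by
  obtain ⟨K', ha, e⟩ := exact_chain K h
  choose w hw hd using fun k i => detect (p.n i) (K' k i) (A i)
  have h1 : cl (unpw w) ∈ hat A := hA _ fun j => by
    rw [← e, mk_mem_hat]
    refine In.of_le (eventually_atTop.2 ⟨j, fun k hk i => ?_⟩)
    rw [pw_unpw]; exact (hw k i).trans (ha i hk)
  obtain ⟨k, hk⟩ := (mk_mem_hat.1 h1).exists
  rw [pw_unpw] at hk
  exact ⟨k, by rw [← e]; exact hat_le_iff.2 (hk.mono (hd k)).of_min⟩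

/-- normalised dimension -/
noncomputable def rk (A : p.Fam ι) : ℝ :=
  limUnder (p.U : Filter p.I) fun i => (finrank F (A i) : ℝ) / p.n i

theorem tendsto_rk (A : p.Fam ι) :
    Tendsto (fun i => (finrank F (A i) : ℝ) / p.n i) p.U (𝓝 (rk A)) := by
  refine tendsto_nhds_limUnder ?_
  obtain ⟨x, _, hx⟩ := (isCompact_Icc (a := (0 : ℝ)) (b := Fintype.card ι)).ultrafilter_le_nhds'
    (p.U.map fun i => (finrank F (A i) : ℝ) / p.n i) (by
      rw [Ultrafilter.mem_map]
      refine Filter.univ_mem' fun i => ⟨by positivity, ?_⟩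
      have hp : (0 : ℝ) < p.n i := by exact_mod_cast p.pos i
      rw [div_le_iff₀ hp]
      have := Submodule.finrank_le (A i)
      rw [Module.finrank_pi_fintype] at this
      simp at this
      exact_mod_cast this)
  exact ⟨x, hx⟩

theorem rk_le_of {A : p.Fam ι} {B : p.Fam κ} {f : p.I → ℕ} (hf : p.sm f)
    (h : ∀ i, finrank F (A i) ≤ finrank F (B i) + f i) : rk A ≤ rk B := by
  have := (tendsto_rk B).add hf
  rw [add_zero] at this
  refine le_of_tendsto_of_tendsto' (tendsto_rk A) this fun i => ?_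
  rw [← add_div]
  have : (finrank F (A i) : ℝ) ≤ finrank F (B i) + f i := by exact_mod_cast h i
  gcongr

theorem rk_mono {A B : p.Fam ι} (h : hat A ≤ hat B) : rk A ≤ rk B :=
  rk_le_of (hat_le_iff.1 h) fun _ => finrank_le_add_dd _ _

theorem rk_congr {A B : p.Fam ι} (h : hat A = hat B) : rk A = rk B :=
  le_antisymm (rk_mono h.le) (rk_mono h.ge)

theorem rk_add_eq {ι₁ ι₂ ι₃ ι₄ : Type} [Fintype ι₁] [Fintype ι₂] [Fintype ι₃] [Fintype ι₄]
    {A : p.Fam ι₁} {B : p.Fam ι₂} {C : p.Fam ι₃} {D : p.Fam ι₄}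
    (h : ∀ i, finrank F (A i) + finrank F (B i) = finrank F (C i) + finrank F (D i)) :
    rk A + rk B = rk C + rk D := by
  refine tendsto_nhds_unique ((tendsto_rk A).add (tendsto_rk B))
    (((tendsto_rk C).add (tendsto_rk D)).congr fun i => ?_)
  rw [← add_div, ← add_div]
  congr 1
  exact_mod_cast (h i).symm

theorem rk_bot : rk (fun _ => ⊥ : p.Fam ι) = 0 :=
  tendsto_nhds_unique (tendsto_rk _) (by simp)

theorem rk_top : rk (fun _ => ⊤ : p.Fam ι) = Fintype.card ι := by
  refine tendsto_nhds_unique (tendsto_rk _) (tendsto_const_nhds.congr fun i => ?_)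
  have hp : (p.n i : ℝ) ≠ 0 := by exact_mod_cast (p.pos i).ne'
  rw [finrank_top, Module.finrank_pi_fintype]
  simp [hp]

theorem rk_mod (A B : p.Fam ι) :
    rk (fun i => A i ⊔ B i) + rk (fun i => A i ⊓ B i) = rk A + rk B :=
  rk_add_eq fun _ => Submodule.finrank_sup_add_finrank_inf_eq _ _

theorem rk_map (c : κ → ι → F) (A : p.Fam ι) :
    rk (fun i => (A i).map (mat c _)) + rk (fun i => A i ⊓ (⊥ : Submodule F _).comap (mat c _)) =
      rk A := by
  have := rk_add_eq (p := p) (A := fun i => (A i).map (mat c _))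
    (B := fun i => A i ⊓ (⊥ : Submodule F _).comap (mat c _)) (C := A) (D := (fun _ => ⊥ : p.Fam ι))
    fun i => by rw [finrank_bot, add_zero]; exact finrank_map_add (mat c (p.V i)) (A i)
  rwa [rk_bot, add_zero] at this

theorem rk_faith {A B : p.Fam ι} (h : hat A ≤ hat B) (k : rk B ≤ rk A) : hat B ≤ hat A := by
  rw [hat_le_iff]
  have h1 : rk (fun i => B i ⊓ A i) = rk A := rk_congr (by rw [hat_inf, inf_eq_right.2 h])
  have h2 := (tendsto_rk B).sub (tendsto_rk fun i => B i ⊓ A i)
  rw [h1, le_antisymm k (rk_mono h), sub_self] at h2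
  refine h2.congr fun i => ?_
  rw [← sub_div]
  congr 1
  have : (dd (B i) (A i) : ℝ) + finrank F (B i ⊓ A i : Submodule F _) = finrank F (B i) := by
    exact_mod_cast dd_add (B i) (A i)
  linarith

end Par

end Pool.Agent.Lib.MP_1e63be_al.Z9
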